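import Pool.Agent.Y6.N.P6

/-! The induction over the stages, and the blow-up theorem for the main modes. -/

open Set Filter Topology MeasureTheory

set_option autoImplicit false

namespace Pool.Agent.Y6.N

open Pool.Agent.Y5 Pool.Agent.Y5.D

namespace Gd

variable {lm L C ℓ M : ℕ → ℝ} {B : ℕ → ℕ → ℝ} {T : ℝ} {x f : ℕ → ℝ → ℝ}
variable {n : ℕ} {σ a : ℕ → ℝ} {t1 : ℝ}

lemma eta_le (q : Seq lm L C ℓ M B) (m : ℕ) : eta lm m ≤ Real.exp (-(lm m / 200)) := by
  apply Real.exp_le_exp.2
  have := slm q m
  linarith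

/-- the case of an incomplete stage -/
lemma last (g : Gd lm L C ℓ M B T x f) (h : Stg lm L T x n σ a) (hc : Cur lm L T x n σ a T) :
    ∀ t ∈ Ico 0 T, ∀ m, n + 2 ≤ m → |x m t| ≤ Real.exp (-(lm (m - 1) / 200)) := by
  intro t ht m hm
  have q := g.sq
  have h0 : 0 ≤ σ n := σnn h le_rfl
  have htot := g.tot h hc.le
  have hlm0 := slm q 0
  have hall := g.curAll h hc
  have hsum : ∑ i ∈ Finset.range (n + 2), I L x i t ≤ 108 / 10000 * lm (n + 1) := by
    rcases le_total (σ n) t with h1 | h1
    · exact (hall t ⟨h1, ht.2⟩).1.le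
    · refine le_trans ?_ (hall (σ n) ⟨le_rfl, hc.lt⟩).1.le
      exact Finset.sum_le_sum fun i _ => g.I_mono i ht.1 h1 h.σT
  have h2 := g.TBall (n := n + 1) (t := t) ht (by linarith [ht.2]) hsum (m - 1) (by omega)
  have h3 := h2.2 t ⟨ht.1, le_rfl⟩
  rw [Nat.sub_add_cancel (by omega)] at h3
  exact (g.abs_le_sqrt ht (le_refl m)).trans (h3.trans (eta_le q _))

/-- One step of the induction. -/
theorem step (g : Gd lm L C ℓ M B T x f) (h : Stg lm L T x n σ a) :
    (T ≤ lm 0 ∧ ∀ t ∈ Ico 0 T, ∀ m, n + 2 ≤ m → |x m t| ≤ Real.exp (-(lm (m - 1) / 200))) ∨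
    ∃ σ' a', Stg lm L T x (n + 1) σ' a' := by
  have q := g.sq
  have hlm := slm q n
  have hlmb := q.lm_big n
  have hlm0 := slm q 0
  have hLp := sLp q n
  have h0 : 0 ≤ σ n := σnn h le_rfl
  have ha := apos h n le_rfl
  have hG := g.Gpos h n le_rfl
  set T' := min T (σ n + 23 / 1000 * lm n / (L n * a n)) with hT'
  have hσT' : σ n < T' := lt_min h.σT (by
    have : 0 < 23 / 1000 * lm n / (L n * a n) := by positivity
    linarith)
  have hT'T : T' ≤ T := min_le_left _ _
  set F : ℝ → ℝ := fun t => max (Y x (n + 1) t - (1 / 100 * x n t) ^ 2) (9 / 10 * a n - x n t)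
    with hF
  have hsub : Ico (σ n) T' ⊆ Ico 0 T := fun t ht => ⟨h0.trans ht.1, ht.2.trans_le hT'T⟩
  have hfc : ContinuousOn F (Ico (σ n) T') := by
    refine ContinuousOn.sup ?_ ?_
    · exact ((g.Ycont (n + 1)).mono hsub).sub ((continuousOn_const.mul
        ((g.cont n).mono hsub)).pow 2)
    · exact continuousOn_const.sub ((g.cont n).mono hsub)
  have hXn : 0 < x n (σ n) := (by positivity : 0 < 995 / 1000 * a n).trans_le h.init
  have hf0 : F (σ n) < 0 := by
    refine max_lt ?_ ?_
    · have h1 := g.preT h n le_rfl (σ n) ⟨h0, le_rfl⟩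
      have h2 : √(Y x (n + 1) (σ n)) < 1 / 100 * x n (σ n) := by
        have h3 := g.aE h n le_rfl
        have hE := EE_pos (lm := lm) n
        have hEb := EE_big q n
        have h4 : EE lm n * eta lm n ≤ 1 / 10 ^ 20 := by
          have h5 : EE lm n ^ 1 * Real.exp (-(88 / 10000) * lm n)
              ≤ Real.exp (-(1 / 1000) * lm n) := EE_exp q n 1 (by norm_num)
          rw [pow_one] at h5
          exact h5.trans (exp_small q n (by norm_num))
        have h5 : EE lm n * √(Y x (n + 1) (σ n)) < EE lm n * (1 / 100 * x n (σ n)) := by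
          calc EE lm n * √(Y x (n + 1) (σ n)) ≤ EE lm n * eta lm n := by gcongr
            _ ≤ 1 / 10 ^ 20 := h4
            _ < 1 / 100 * (995 / 1000 * 1) := by norm_num
            _ ≤ 1 / 100 * (995 / 1000 * (EE lm n * a n)) := by gcongr
            _ = EE lm n * (1 / 100 * (995 / 1000 * a n)) := by ring
            _ ≤ _ := by have := h.init; gcongr
        exact lt_of_mul_lt_mul_left h5 hE.le
      have h6 : Y x (n + 1) (σ n) < (1 / 100 * x n (σ n)) ^ 2 := by
        rw [← Real.sq_sqrt (Y_nonneg (x := x) (n + 1) (σ n))]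
        gcongr
      linarith
    · have := h.init; linarith
  rcases first_time hfc hf0 with hI | ⟨t1, ht1, hft1, hbelow⟩
  · -- incomplete stage
    left
    have hc : Cur lm L T x n σ a T' := ⟨hσT', hT'T, min_le_right _ _, fun t ht => by
      have h1 := hI t ht
      have h2 := (max_lt_iff.1 h1)
      exact ⟨by linarith [h2.1], by linarith [h2.2]⟩⟩
    have hdur : (T' - σ n) * (L n * a n) ≤ 214 / 10000 * lm n := by
      by_contra hcon
      push Not at hcon
      set w := σ n + 214 / 10000 * lm n / (L n * a n) with hw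
      have hw1 : σ n < w := by
        have : 0 < 214 / 10000 * lm n / (L n * a n) := by positivity
        linarith
      have hw2 : w < T' := by
        have : 214 / 10000 * lm n / (L n * a n) < T' - σ n := by
          rw [div_lt_iff₀ hG]; exact hcon
        linarith
      obtain ⟨t, ht1, ht2⟩ := exists_between hw2
      have h1 := (g.curC h hc t ⟨hw1.trans ht1, ht2⟩).2.2.2.2.1
      have h2 : 214 / 10000 * lm n < (t - σ n) * (L n * a n) := by
        rw [← div_lt_iff₀ hG]; linarith
      linarith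
    have hT'eq : T' = T := by
      by_contra hne
      have h1 : T' = σ n + 23 / 1000 * lm n / (L n * a n) := by
        rcases min_choice T (σ n + 23 / 1000 * lm n / (L n * a n)) with h2 | h2
        · exact absurd h2 hne
        · exact h2
      have h2 : (T' - σ n) * (L n * a n) = 23 / 1000 * lm n := by
        rw [h1]; field_simp; ring
      linarith
    rw [hT'eq] at hc
    refine ⟨?_, g.last h hc⟩
    have := g.tot h hc.le
    linarith
  · -- complete stage
    right
    have ht1T : t1 < T := ht1.2.trans_le hT'T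
    have ht10 : 0 < t1 := h0.trans_lt ht1.1
    have hc : Cur lm L T x n σ a t1 := ⟨ht1.1, ht1T.le, ht1.2.le.trans (min_le_right _ _),
      fun t ht => by
        have h1 := hbelow t ht
        have h2 := (max_lt_iff.1 h1)
        exact ⟨by linarith [h2.1], by linarith [h2.2]⟩⟩
    have hX : 99 / 100 * a n ≤ x n t1 := by
      have := lim_le (f := fun τ => -(x n τ)) (T := T) (α := σ n) (t := t1)
        (c := -(99 / 100 * a n)) (g.cont n).neg h0 ht1T ht1.1 (fun τ hτ => by
          have := (g.curC h hc τ hτ).1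
          linarith)
      linarith
    have hXp : 0 < x n t1 := (by positivity : 0 < 99 / 100 * a n).trans_le hX
    have hY1 : Y x (n + 1) t1 = (1 / 100 * x n t1) ^ 2 := by
      have h1 : 9 / 10 * a n - x n t1 < 0 := by linarith
      have h2 : max (Y x (n + 1) t1 - (1 / 100 * x n t1) ^ 2) (9 / 10 * a n - x n t1) = 0 := hft1
      rcases max_choice (Y x (n + 1) t1 - (1 / 100 * x n t1) ^ 2) (9 / 10 * a n - x n t1)
        with h3 | h3
      · rw [h3] at h2; linarith
      · rw [h3] at h2; linarith
    have hC := sCp q n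
    have hCs := C_small0 q n
    have hZ0 : -(1 / 10 ^ 20 * x n t1) ≤ x (n + 1) t1 := by
      have h2 := lim_le (f := fun τ => -(x (n + 1) τ) - C n / 8 * x n τ) (T := T) (α := σ n)
        (t := t1) (c := 0) ((g.cont (n + 1)).neg.sub (continuousOn_const.mul (g.cont n))) h0 ht1T
        ht1.1 (fun τ hτ => by
          have h3 := (g.curC h hc τ hτ).2.2.2.1
          rw [le_div_iff₀ (Xpos h hc ⟨hτ.1.le, hτ.2⟩)] at h3
          linarith)
      have h3 : C n / 8 * x n t1 ≤ 1 / 10 ^ 20 * x n t1 :=
        mul_le_mul_of_nonneg_right (by linarith) hXp.le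
      linarith
    have hYn2 : √(Y x (n + 2) t1) ≤ eta lm (n + 1) :=
      lim_le (f := fun τ => √(Y x (n + 2) τ)) (T := T) (α := σ n)
        (t := t1) (g.Ycont (n + 2)).sqrt
        h0 ht1T ht1.1 (fun τ hτ => (g.curC h hc τ hτ).2.2.2.2.2)
    have hE1 : I L x n t1 ≤ 314 / 10000 * lm n :=
      lim_le (T := T) (α := σ n) (Pr_cont (g.cabs n)) h0 ht1T ht1.1 (fun τ hτ => by
        have h5 : I L x n τ ≤ 313 / 10000 * lm n := (g.curC h hc τ hτ).2.1
        have h6 : I L x n τ ≤ 314 / 10000 * lm n := by linarith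
        exact h6)
    have hJ1 : I L x (n + 1) t1 ≤ 102 / 10000 * lm (n + 1) :=
      lim_le (T := T) (α := σ n) (Pr_cont (g.cabs (n + 1))) h0 ht1T ht1.1
        (fun τ hτ => (g.curC h hc τ hτ).2.2.1)
    refine ⟨fun i => if i ≤ n then σ i else t1, fun i => if i ≤ n then a i else 1 / 100 * x n t1,
      ?_⟩
    have hn1 : ¬ (n + 1 ≤ n) := by omega
    constructor
    · simp [h.σ0]
    · simp [h.a0]
    · intro i hi
      rcases Nat.lt_succ_iff_lt_or_eq.1 hi with h1 | h1
      · rw [if_pos (by omega), if_pos (by omega)]; exact h.σlt i h1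
      · subst h1
        rw [if_pos le_rfl, if_neg (by omega)]; exact ht1.1
    · rw [if_neg hn1]; exact ht1T
    · intro i hi
      rcases Nat.lt_succ_iff_lt_or_eq.1 hi with h1 | h1
      · rw [if_pos (by omega), if_pos (by omega), if_pos (by omega)]; exact h.dur i h1
      · subst h1
        rw [if_pos le_rfl, if_neg (by omega), if_pos le_rfl]
        have := hc.le
        linarith
    · intro i hi
      rcases Nat.lt_succ_iff_lt_or_eq.1 hi with h1 | h1
      · rw [if_pos (by omega), if_pos (by omega)]; exact h.agrow i h1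
      · subst h1
        rw [if_pos le_rfl, if_neg (by omega)]
        linarith
    · intro i hi
      rcases Nat.lt_succ_iff_lt_or_eq.1 hi with h1 | h1
      · rw [if_pos (by omega), if_pos (by omega)]; exact h.cross i h1
      · subst h1
        rw [if_neg (by omega), if_neg (by omega)]
        ring
    · intro i hi
      rcases Nat.lt_succ_iff_lt_or_eq.1 (Nat.lt_succ_of_le hi) with h1 | h1
      · rw [if_pos (by omega), if_pos (by omega)]; exact h.aY i (by omega)
      · subst h1
        rw [if_neg (by omega), if_neg (by omega), hY1]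
        exact Real.sqrt_sq (by positivity)
    · rw [if_neg hn1, if_neg hn1]
      have h1 := g.Y_succ (t := t1) ⟨ht10.le, ht1T⟩ (n + 1)
      rw [hY1] at h1
      have e : n + 1 + 1 = n + 2 := rfl
      rw [e] at h1
      -- the tail is small
      have h3 : √(Y x (n + 2) t1) ≤ 1 / 10 ^ 6 * x n t1 := by
        refine hYn2.trans ?_
        have h4 := g.aE h n le_rfl
        have hE := EE_pos (lm := lm) n
        have h5 : EE lm n * eta lm (n + 1) ≤ 1 / 10 ^ 20 := by
          have h6 : eta lm (n + 1) ≤ Real.exp (-(1 / 100) * lm n) := by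
            refine (exp_next q n (by norm_num)).trans (Real.exp_le_exp.2 ?_)
            nlinarith
          have h7 : EE lm n ^ 1 * Real.exp (-(1 / 100) * lm n)
              ≤ Real.exp (-(1 / 1000) * lm n) := EE_exp q n 1 (by norm_num)
          rw [pow_one] at h7
          calc EE lm n * eta lm (n + 1) ≤ EE lm n * Real.exp (-(1 / 100) * lm n) := by gcongr
            _ ≤ _ := h7.trans (exp_small q n (by norm_num))
        have h8 : EE lm n * eta lm (n + 1) ≤ EE lm n * (1 / 10 ^ 6 * x n t1) := by
          calc EE lm n * eta lm (n + 1) ≤ 1 / 10 ^ 20 := h5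
            _ ≤ 1 / 10 ^ 6 * (99 / 100 * 1) := by norm_num
            _ ≤ 1 / 10 ^ 6 * (99 / 100 * (EE lm n * a n)) := by gcongr
            _ = EE lm n * (1 / 10 ^ 6 * (99 / 100 * a n)) := by ring
            _ ≤ _ := by gcongr
        exact le_of_mul_le_mul_left h8 hE
      have h4 : Y x (n + 2) t1 ≤ (1 / 10 ^ 6 * x n t1) ^ 2 := by
        rw [← Real.sq_sqrt (Y_nonneg (x := x) (n + 2) t1)]
        gcongr
      have h5 : (996 / 1000 * (1 / 100 * x n t1)) ^ 2 ≤ x (n + 1) t1 ^ 2 := by
        have : 0 ≤ x n t1 ^ 2 := by positivity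
        nlinarith
      have h6 : 996 / 1000 * (1 / 100 * x n t1) ≤ |x (n + 1) t1| := by
        exact (le_abs_self _).trans (sq_le_sq.1 h5)
      rcases le_total 0 (x (n + 1) t1) with h7 | h7
      · rw [abs_of_nonneg h7] at h6
        linarith
      · rw [abs_of_nonpos h7] at h6
        exfalso
        linarith
    · intro i hi
      rcases Nat.lt_succ_iff_lt_or_eq.1 hi with h1 | h1
      · rw [if_pos (by omega)]; exact h.J i h1
      · subst h1
        rw [if_neg (by omega)]
        exact hJ1
    · intro i hi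
      rcases Nat.lt_succ_iff_lt_or_eq.1 hi with h1 | h1
      · rw [if_pos (by omega)]; exact h.Γ i h1
      · subst h1
        rw [if_neg (by omega)]
        exact hE1

lemma base (g : Gd lm L C ℓ M B T x f) : Stg lm L T x 0 (fun _ => 0) (fun _ => 1) := by
  have hY1 : Y x (0 + 1) 0 = 0 := by
    rw [Y]
    have : ∀ j : ℕ, x (0 + 1 + j) 0 ^ 2 = 0 := fun j => by
      have e : 0 + 1 + j = j + 1 := by omega
      rw [e, g.hn j]; simp
    simp only [this, tsum_zero]
  constructor
  · rfl
  · rfl
  · intro i hi; omega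
  · exact g.hT
  · intro i hi; omega
  · intro i hi; omega
  · intro i hi; omega
  · intro i hi
    have : i = 0 := by omega
    subst this
    rw [g.Y_succ ⟨le_rfl, g.hT⟩ 0, g.h0, hY1, add_zero]
    simp
  · rw [g.h0]; norm_num
  · intro i hi; omega
  · intro i hi; omega

/-- The alternatives. -/
theorem main (g : Gd lm L C ℓ M B T x f) : T ≤ lm 0 ∧
    ((∀ n, ∃ t ∈ Ico 0 T, (8 / 1000) ^ n ≤ x n t ∧
        ∀ m, n < m → |x m t| ≤ Real.exp (-(lm (m - 1) / 200))) ∨
      ∃ n₀, ∀ t ∈ Ico 0 T, ∀ m, n₀ ≤ m → |x m t| ≤ Real.exp (-(lm (m - 1) / 200))) := by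
  have q := g.sq
  have hlm0 := slm q 0
  by_cases hall : ∀ n, ∃ σ a, Stg lm L T x n σ a
  · refine ⟨?_, Or.inl fun n => ?_⟩
    · by_contra hcon
      push Not at hcon
      obtain ⟨Mx, hM⟩ := g.bdd (lm 0) hcon
      have htend : Tendsto (fun n : ℕ => (2 : ℝ) ^ n * (1 / 2)) atTop atTop :=
        (tendsto_pow_atTop_atTop_of_one_lt one_lt_two).atTop_mul_const (by norm_num)
      obtain ⟨n, hn⟩ := (htend.eventually_gt_atTop Mx).exists
      obtain ⟨σ, a, h⟩ := hall n
      have h1 := hM (σ n) ⟨σnn h le_rfl, by have := g.σle h; linarith⟩ n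
      have h2 : 2 ^ n * (1 / 2) ≤ L n ^ 10 * |x n (σ n)| := by
        have h3 := g.G1 h n le_rfl
        have h4 := h.init
        have h5 := sLpow q n
        have h6 := sL1 q n
        have h7 := sLp q n
        have h8 : (2 : ℝ) ^ n ≤ (10 ^ 30) ^ n := by gcongr; norm_num
        have ha := apos h n le_rfl
        calc (2 : ℝ) ^ n * (1 / 2) ≤ L n * (995 / 1000 * (L n * a n)) := by
              have : (2 : ℝ) ^ n ≤ L n := h8.trans h5
              gcongr
              linarith
          _ = L n ^ 2 * (995 / 1000 * a n) := by ring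
          _ ≤ L n ^ 10 * |x n (σ n)| := by
              have h9 : L n ^ 2 ≤ L n ^ 10 := pow_le_pow_right₀ h6 (by norm_num)
              have h10 : 995 / 1000 * a n ≤ |x n (σ n)| := h4.trans (le_abs_self _)
              exact mul_le_mul h9 h10 (by positivity) (by positivity)
      linarith
    · obtain ⟨σ, a, h⟩ := hall n
      have h0 : 0 ≤ σ n := σnn h le_rfl
      refine ⟨σ n, ⟨h0, h.σT⟩, ?_, fun m hm => ?_⟩
      · rcases n with _ | n
        · rw [h.σ0, g.h0]; simp
        · have h1 := alow h (n + 1) le_rfl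
          have h2 := h.init
          have h3 : ((8 : ℝ) / 1000) ^ n ≤ (9 / 1000) ^ n := by gcongr; norm_num
          calc ((8 : ℝ) / 1000) ^ (n + 1) = 8 / 1000 * (8 / 1000) ^ n := by ring
            _ ≤ 8 / 1000 * (9 / 1000) ^ n := by gcongr
            _ = 8 / 9 * (9 / 1000) ^ (n + 1) := by ring
            _ ≤ 995 / 1000 * (9 / 1000) ^ (n + 1) :=
                mul_le_mul_of_nonneg_right (by norm_num) (by positivity)
            _ ≤ 995 / 1000 * a (n + 1) := by gcongr
            _ ≤ _ := h2
      · have h1 := g.preT h (m - 1) (by omega) (σ n) ⟨h0, le_rfl⟩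
        rw [Nat.sub_add_cancel (by omega)] at h1
        exact (g.abs_le_sqrt ⟨h0, h.σT⟩ (le_refl m)).trans (h1.trans (eta_le q _))
  · have hex : ∃ n, T ≤ lm 0 ∧ ∀ t ∈ Ico 0 T, ∀ m, n + 2 ≤ m →
        |x m t| ≤ Real.exp (-(lm (m - 1) / 200)) := by
      by_contra hcon
      push Not at hcon
      apply hall
      intro n
      induction n with
      | zero => exact ⟨_, _, g.base⟩
      | succ n ih =>
        obtain ⟨σ, a, h⟩ := ih
        rcases g.step h with h1 | h1
        · exfalso
          obtain ⟨t, ht, m, hm, h2⟩ := hcon n h1.1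
          have := h1.2 t ht m hm
          linarith
        · exact h1
    obtain ⟨n, h1, h2⟩ := hex
    exact ⟨h1, Or.inr ⟨n + 2, fun t ht m hm => h2 t ht m hm⟩⟩

end Gd

theorem t_ODE2 : S_ODE2 := by
  intro lm L C ℓ M B q
  refine ⟨ph lm, fun n => ph_pos lm n, lm 0, slm q 0, ?_⟩
  intro T x f hT hder hbdd hen hf h0 hn
  have g : Gd lm L C ℓ M B T x f := ⟨q, hT, hder, hbdd, hen, hf, h0, hn⟩
  exact g.main

end Pool.Agent.Y6.N
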