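import Pool.Agent.Y6.N.Stm

/-! Blow-up for the full system of the modes (assembly). -/

open Set Filter Topology MeasureTheory

set_option autoImplicit false

namespace Pool.Agent.Y6.N

open Pool.Agent.Y5 Pool.Agent.Y5.D
open Pool.Agent.Y6.K (Kz lv)

section

variable {J : Type} {g o : J → ℕ} {σ : J → J} {τ : J → ℝ} {lm L C M ℓ ℓ' ρ E φ β S : ℕ → ℝ}
  {B : ℕ → ℕ → ℝ} {D : Ix J → Ix J → ℝ} {c : Ix J → Ix J → Ix J → ℝ} {Θ : ℝ}

namespace Bl

lemma L_one (h : Seq lm L C ℓ M B) (n : ℕ) : 1 ≤ L n := by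
  induction n with
  | zero => exact h.L0
  | succ n ih =>
    have h1 := h.lm_succ n
    have h2 := h.lm_big (n + 1)
    nlinarith

lemma L_step (h : Seq lm L C ℓ M B) (n : ℕ) : 10 ^ 30 * L n ≤ L (n + 1) := by
  rw [← h.lm_succ n]
  exact mul_le_mul_of_nonneg_right (h.lm_big _) (le_trans zero_le_one (L_one h n))

lemma L_mono (h : Seq lm L C ℓ M B) : Monotone L := by
  refine monotone_nat_of_le_succ fun n => ?_
  have h1 := L_step h n
  have h2 := L_one h n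
  linarith

lemma L_geo (h : Seq lm L C ℓ M B) (n : ℕ) : (2 : ℝ) ^ n ≤ L n := by
  induction n with
  | zero => simpa using h.L0
  | succ n ih =>
    have h1 := L_step h n
    have h2 := L_one h n
    rw [pow_succ]
    linarith

lemma L_inv_sum (h : Seq lm L C ℓ M B) : Summable (fun n => (L n)⁻¹) := by
  refine Summable.of_nonneg_of_le (fun n => (inv_pos.2 (lt_of_lt_of_le one_pos (L_one h n))).le)
    (fun n => ?_) summable_geometric_two
  rw [one_div, inv_pow]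
  exact inv_anti₀ (by positivity) (L_geo h n)

lemma pow_exp (k : ℕ) {x : ℝ} (hx : 0 ≤ x) : x ^ k * Real.exp (-x) ≤ k.factorial := by
  have h1 := Real.pow_div_factorial_le_exp x hx k
  have h2 : (0 : ℝ) < k.factorial := by exact_mod_cast k.factorial_pos
  rw [div_le_iff₀ h2] at h1
  rw [Real.exp_neg, ← div_eq_mul_inv, div_le_iff₀ (Real.exp_pos _)]
  linarith

/-- the modes of the truncated system -/
lemma fin_lv (R : Rot o σ τ) (m : ℕ) : {i : Ix J | lv o i ≤ m}.Finite := by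
  have h1 : {i : Ix J | lv o i ≤ m} ⊆ Sum.inl '' (Set.Iic m) ∪ Sum.inr '' {j | o j ≤ m} := by
    rintro (n | j) h
    · exact Or.inl ⟨n, h, rfl⟩
    · exact Or.inr ⟨j, h, rfl⟩
  exact (((Set.finite_Iic m).image _).union ((R.fin m).image _)).subset h1

lemma fsupp (R : Rot o σ τ) {n : ℕ} {z : Ix J → ℝ → ℝ} (h : TSol Θ S o σ τ D c n z) (t : ℝ) :
    (Function.support fun a => z a t).Finite := by
  refine (fin_lv R n).subset fun i hi => ?_
  by_contra hcon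
  have hcon : ¬ lv o i ≤ n := hcon
  rw [not_le] at hcon
  exact hi (h.zero i hcon t)

lemma summ (R : Rot o σ τ) {n : ℕ} {z : Ix J → ℝ → ℝ} (h : TSol Θ S o σ τ D c n z) (t : ℝ) :
    Summable (fun a => z a t ^ 2) := by
  refine summable_of_hasFiniteSupport ((fsupp R h t).subset fun i hi => ?_)
  intro h0
  apply hi
  have h0 : z i t = 0 := h0
  simp [h0]

lemma en_main {z : Ix J → ℝ} (h1 : Summable (fun a => z a ^ 2)) (h2 : ∑' a, z a ^ 2 ≤ 1) :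
    Summable (fun n => z (Sum.inl n) ^ 2) ∧ ∑' n, z (Sum.inl n) ^ 2 ≤ 1 := by
  have h3 : Summable (fun n => z (Sum.inl n) ^ 2) := h1.comp_injective Sum.inl_injective
  refine ⟨h3, le_trans ?_ h2⟩
  exact tsum_comp_le_tsum_of_inj h1 (fun a => sq_nonneg _) Sum.inl_injective

lemma abs_le_one {z : Ix J → ℝ} (h1 : Summable (fun a => z a ^ 2)) (h2 : ∑' a, z a ^ 2 ≤ 1)
    (a : Ix J) : |z a| ≤ 1 := by
  have h3 : z a ^ 2 ≤ 1 := (h1.le_tsum a fun b _ => sq_nonneg _).trans h2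
  rw [← sq_abs] at h3
  nlinarith [abs_nonneg (z a)]

/-- the perturbation of the main system -/
noncomputable def pf (L C ℓ : ℕ → ℝ) (B : ℕ → ℕ → ℝ) (D : Ix J → Ix J → ℝ)
    (c : Ix J → Ix J → Ix J → ℝ) (z : Ix J → ℝ → ℝ) (n : ℕ) (t : ℝ) : ℝ :=
  qd c (fun a => z a t) (Sum.inl n) - lin D (fun a => z a t) (Sum.inl n) -
    vf3 L C ℓ B (fun m => z (Sum.inl m) t) n

/-- the bound of the perturbation -/
def PBd (g : J → ℕ) (L C ℓ : ℕ → ℝ) (B : ℕ → ℕ → ℝ) (D : Ix J → Ix J → ℝ)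
    (c : Ix J → Ix J → Ix J → ℝ) (φ β : ℕ → ℝ) : Prop :=
  ∀ z : Ix J → ℝ, Summable (fun a => z a ^ 2) → ∑' a, z a ^ 2 ≤ 1 →
      (∀ j, |z (Sum.inr j)| ≤ β (g j)) → ∀ n,
      Summable (fun p : Ix J × Ix J => c (Sum.inl n) p.1 p.2 * z p.1 * z p.2) →
      |qd c z (Sum.inl n) - lin D z (Sum.inl n) - vf3 L C ℓ B (fun m => z (Sum.inl m)) n|
        ≤ φ 0 * |z (Sum.inl n)| + φ n

/-- truncated solutions give solutions of the perturbed main system -/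
lemma xsol (R : Rot o σ τ) (hp : PBd g L C ℓ B D c φ β) {n : ℕ} {z : Ix J → ℝ → ℝ}
    (h : TSol Θ S o σ τ D c n z)
    (hz : ∀ j, ∀ t ∈ Icc (0 : ℝ) Θ, |z (Sum.inr j) t| ≤ β (g j)) {a b : ℝ} (ha : 0 ≤ a)
    (hb : b ≤ Θ) : XSol L C ℓ B φ a b (fun m => z (Sum.inl m)) (pf L C ℓ B D c z) := by
  have hsub : Icc a b ⊆ Icc 0 Θ := Icc_subset_Icc ha hb
  refine ⟨fun m => ?_, fun m t ht => ?_, fun t ht => en_main (summ R h t) (h.energy t (hsub ht))⟩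
  · rcases le_or_gt m n with hm | hm
    · refine Or.inr fun t ht => ?_
      have h1 := (h.deriv (Sum.inl m) hm t (hsub ht)).mono hsub
      refine h1.congr_deriv ?_
      simp only [Kz, pf]
      ring
    · exact Or.inl fun t _ => h.zero (Sum.inl m) hm t
  · refine hp _ (summ R h t) (h.energy t (hsub ht)) (fun j => hz j t (hsub ht)) m ?_
    refine summable_of_hasFiniteSupport (((fsupp R h t).prod (fsupp R h t)).subset ?_)
    rintro ⟨a, b⟩ hab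
    have hab : c (Sum.inl m) a b * z a t * z b t ≠ 0 := hab
    refine ⟨fun h0 => hab ?_, fun h0 => hab ?_⟩
    · have h0 : z a t = 0 := h0
      rw [h0]; ring
    · have h0 : z b t = 0 := h0
      rw [h0]; ring

lemma apriori (hq : Seq lm L C ℓ M B) (R : Rot o σ τ) {n : ℕ} {z : Ix J → ℝ → ℝ}
    (h : TSol Θ S o σ τ D c n z) {θ : ℝ} (hθ : θ ≤ Θ) (k : ℕ) :
    ∃ X, ∀ m, ∀ t ∈ Icc 0 θ, L m ^ k * |z (Sum.inl m) t| ≤ X := by
  refine ⟨L n ^ k, fun m t ht => ?_⟩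
  have h0 : 0 ≤ L m := le_trans zero_le_one (L_one hq m)
  have h0' : 0 ≤ L n := le_trans zero_le_one (L_one hq n)
  rcases le_or_gt m n with hm | hm
  · have h1 := abs_le_one (summ R h t) (h.energy t ⟨ht.1, ht.2.trans hθ⟩) (Sum.inl m)
    calc L m ^ k * |z (Sum.inl m) t| ≤ L n ^ k * 1 :=
          mul_le_mul (pow_le_pow_left₀ h0 (L_mono hq hm) k) h1 (abs_nonneg _) (pow_nonneg h0' _)
      _ = L n ^ k := mul_one _
  · rw [h.zero (Sum.inl m) hm t, abs_zero, mul_zero]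
    exact pow_nonneg h0' _

/-- good times -/
def Good (Θ : ℝ) (L : ℕ → ℝ) (U : Ultrafilter ℕ) (Z : ℕ → Ix J → ℝ → ℝ) (θ : ℝ) : Prop :=
  0 ≤ θ ∧ θ ≤ Θ ∧ ∃ X, ∀ᶠ n in (U : Filter ℕ), ∀ t ∈ Icc 0 θ, ∀ m,
    L m ^ 2 * |Z n (Sum.inl m) t| ≤ X

lemma Good.mono {U : Ultrafilter ℕ} {Z : ℕ → Ix J → ℝ → ℝ} {θ θ' : ℝ} (h : Good Θ L U Z θ)
    (h0 : 0 ≤ θ') (h1 : θ' ≤ θ) : Good Θ L U Z θ' := by
  obtain ⟨a, b, X, hX⟩ := h
  exact ⟨h0, h1.trans b, X, hX.mono fun n hn t ht m => hn t ⟨ht.1, ht.2.trans h1⟩ m⟩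

lemma good_zero (hΘ : 0 ≤ Θ) {U : Ultrafilter ℕ} {Z : ℕ → Ix J → ℝ → ℝ}
    (hZ : ∀ n, Init (Z n)) : Good Θ L U Z 0 := by
  refine ⟨le_rfl, hΘ, L 0 ^ 2, Eventually.of_forall fun n t ht m => ?_⟩
  have h0 : t = 0 := le_antisymm ht.2 ht.1
  subst h0
  obtain ⟨h1, h2, -⟩ := hZ n
  rcases m with _ | m
  · rw [h1]; simp
  · rw [h2]; simpa using sq_nonneg (L 0)

lemma Good.pers (hPERS : S_PERS2) (hq : Seq lm L C ℓ M B) (hφ0 : ∀ n, 0 < φ n)
    (hφ : ∀ k : ℕ, ∃ X, ∀ n, L n ^ k * φ n ≤ X) (R : Rot o σ τ) (hp : PBd g L C ℓ B D c φ β)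
    {Z : ℕ → Ix J → ℝ → ℝ} (hZ : ∀ n, TSol Θ S o σ τ D c n (Z n))
    (hb : ∀ n j, ∀ t ∈ Icc (0 : ℝ) Θ, |Z n (Sum.inr j) t| ≤ β (g j))
    {U : Ultrafilter ℕ} {θ : ℝ} (h : Good Θ L U Z θ) (k : ℕ) :
    ∃ Y, ∀ᶠ n in (U : Filter ℕ), ∀ t ∈ Icc 0 θ, ∀ m, L m ^ k * |Z n (Sum.inl m) t| ≤ Y := by
  obtain ⟨h0, h1, X, hX⟩ := h
  obtain ⟨Y, hY⟩ := hPERS lm L C ℓ M B φ hq hφ0 hφ Θ k X
  refine ⟨Y, hX.mono fun n hn t ht m => ?_⟩
  exact hY θ _ _ h0 h1 (xsol R hp (hZ n) (hb n) le_rfl h1) (hZ n).init.1 (hZ n).init.2.1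
    (fun m t ht => hn t ht m) (apriori hq R (hZ n) h1 k) m t ht

lemma Good.lim (hPERS : S_PERS2) (hq : Seq lm L C ℓ M B) (hφ0 : ∀ n, 0 < φ n)
    (hφ : ∀ k : ℕ, ∃ X, ∀ n, L n ^ k * φ n ≤ X) (R : Rot o σ τ) (hp : PBd g L C ℓ B D c φ β)
    {Z : ℕ → Ix J → ℝ → ℝ} (hZ : ∀ n, TSol Θ S o σ τ D c n (Z n))
    (hb : ∀ n j, ∀ t ∈ Icc (0 : ℝ) Θ, |Z n (Sum.inr j) t| ≤ β (g j))
    {U : Ultrafilter ℕ} {z : Ix J → ℝ → ℝ} {θ : ℝ} (h : Good Θ L U Z θ)
    (hl : ∀ i, ∀ t ∈ Icc (0 : ℝ) Θ, Tendsto (fun n => Z n i t) U (𝓝 (z i t))) (k : ℕ) :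
    ∃ Y, ∀ m, ∀ t ∈ Icc 0 θ, L m ^ k * |z (Sum.inl m) t| ≤ Y := by
  obtain ⟨Y, hY⟩ := h.pers hPERS hq hφ0 hφ R hp hZ hb k
  refine ⟨Y, fun m t ht => ?_⟩
  have h2 := hl (Sum.inl m) t ⟨ht.1, ht.2.trans h.2.1⟩
  have h3 : Tendsto (fun n => L m ^ k * |Z n (Sum.inl m) t|) U
      (𝓝 (L m ^ k * |z (Sum.inl m) t|)) := h2.abs.const_mul _
  exact le_of_tendsto h3 (hY.mono fun n hn => hn t ht m)

/-- absolute summability of the modes -/
lemma abs_sum (hq : Seq lm L C ℓ M B) (hs : Summable (fun j => β (g j))) {z : Ix J → ℝ} {X : ℝ}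
    (h1 : ∀ m, L m * |z (Sum.inl m)| ≤ X) (h2 : ∀ j, |z (Sum.inr j)| ≤ β (g j)) :
    Summable (fun a => |z a|) := by
  have h3 : Summable ((fun a => |z a|) ∘ Sum.inl) := by
    refine Summable.of_nonneg_of_le (fun n => abs_nonneg _) (fun n => ?_)
      ((L_inv_sum hq).mul_left X)
    have hL : 0 < L n := lt_of_lt_of_le one_pos (L_one hq n)
    rw [← div_eq_mul_inv, le_div_iff₀ hL, mul_comm]
    exact h1 n
  have h4 : Summable ((fun a => |z a|) ∘ Sum.inr) :=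
    Summable.of_nonneg_of_le (fun j => abs_nonneg _) (fun j => h2 j) hs
  exact (HasSum.sum h3.hasSum h4.hasSum).summable

lemma c_sum (K : Kern g L C B M c) {z : Ix J → ℝ} (h : Summable (fun a => |z a|)) (i : Ix J) :
    Summable (fun p : Ix J × Ix J => c i p.1 p.2 * z p.1 * z p.2) := by
  have h1 : Summable (fun p : Ix J × Ix J => |z p.1| * |z p.2|) :=
    h.mul_of_nonneg h (fun _ => abs_nonneg _) (fun _ => abs_nonneg _)
  refine Summable.of_norm_bounded (h1.mul_left (M (gr g i))) fun p => ?_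
  rw [Real.norm_eq_abs, abs_mul, abs_mul, mul_assoc]
  exact mul_le_mul_of_nonneg_right (K.size i p.1 p.2) (mul_nonneg (abs_nonneg _) (abs_nonneg _))

/-- the limit solves the perturbed main system on the intervals of good times -/
lemma xsol_lim (K : Kern g L C B M c) (hq : Seq lm L C ℓ M B) (hs : Summable (fun j => β (g j)))
    (hp : PBd g L C ℓ B D c φ β) {z : Ix J → ℝ → ℝ}
    (hen : ∀ t ∈ Icc (0 : ℝ) Θ, Summable (fun a => z a t ^ 2) ∧ ∑' a, z a t ^ 2 ≤ 1)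
    (hb : ∀ j, ∀ t ∈ Icc (0 : ℝ) Θ, |z (Sum.inr j) t| ≤ β (g j)) {θ : ℝ} (h1 : θ ≤ Θ)
    (hder : ∀ i, ∀ t ∈ Icc 0 θ, HasDerivWithinAt (z i)
        (Kz S o σ τ (fun a => z a t) i - lin D (fun a => z a t) i + qd c (fun a => z a t) i)
        (Icc 0 θ) t)
    (hX : ∃ X, ∀ m, ∀ t ∈ Icc 0 θ, L m ^ 1 * |z (Sum.inl m) t| ≤ X) :
    XSol L C ℓ B φ 0 θ (fun m => z (Sum.inl m)) (pf L C ℓ B D c z) := by
  obtain ⟨X, hX⟩ := hX
  have hsub : Icc 0 θ ⊆ Icc 0 Θ := Icc_subset_Icc le_rfl h1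
  refine ⟨fun m => Or.inr fun t ht => ?_, fun m t ht => ?_,
    fun t ht => en_main (hen t (hsub ht)).1 (hen t (hsub ht)).2⟩
  · refine (hder (Sum.inl m) t ht).congr_deriv ?_
    simp only [Kz, pf]
    ring
  · refine hp _ (hen t (hsub ht)).1 (hen t (hsub ht)).2 (fun j => hb j t (hsub ht)) m ?_
    have h2 : Summable (fun a => |z a t|) := by
      refine abs_sum (z := fun a => z a t) hq hs (X := X) (fun m => ?_)
        (fun j => hb j t (hsub ht))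
      have := hX m t ht
      rwa [pow_one] at this
    exact c_sum K h2 _

/-- extension of the interval of good times -/
lemma Good.extend (hPERS : S_PERS2) (hq : Seq lm L C ℓ M B) (hφ0 : ∀ n, 0 < φ n)
    (hφ : ∀ k : ℕ, ∃ X, ∀ n, L n ^ k * φ n ≤ X) (R : Rot o σ τ) (hp : PBd g L C ℓ B D c φ β)
    {Z : ℕ → Ix J → ℝ → ℝ} (hZ : ∀ n, TSol Θ S o σ τ D c n (Z n))
    (hb : ∀ n j, ∀ t ∈ Icc (0 : ℝ) Θ, |Z n (Sum.inr j) t| ≤ β (g j))
    {U : Ultrafilter ℕ} {z : Ix J → ℝ → ℝ}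
    (hl : ∀ i, ∀ t ∈ Icc (0 : ℝ) Θ, Tendsto (fun n => Z n i t) U (𝓝 (z i t)))
    {X δ Y : ℝ} (hX : 0 ≤ X)
    (hloc : ∀ (a b : ℝ) (x f : ℕ → ℝ → ℝ), a ≤ b → b ≤ a + δ → XSol L C ℓ B φ a b x f →
      (∃ N : ℕ, ∀ n, N < n → ∀ t ∈ Icc a b, x n t = 0) → (∀ n, L n ^ 3 * |x n a| ≤ X + 1) →
      ∀ n, ∀ t ∈ Icc a b, L n ^ 2 * |x n t| ≤ Y) (hδ : 0 < δ) {θ : ℝ} (h : Good Θ L U Z θ)
    (hθ : ∀ m, L m ^ 3 * |z (Sum.inl m) θ| ≤ X) : Good Θ L U Z (min (θ + δ) Θ) := by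
  obtain ⟨Y4, hY4⟩ := h.pers hPERS hq hφ0 hφ R hp hZ hb 4
  obtain ⟨h0, h1, X2, hX2⟩ := h
  have hθΘ : θ ∈ Icc (0 : ℝ) Θ := ⟨h0, h1⟩
  have hpos : ∀ m, 0 < L m := fun m => lt_of_lt_of_le one_pos (L_one hq m)
  obtain ⟨n₀, hn₀⟩ : ∃ n₀ : ℕ, Y4 ≤ (2 : ℝ) ^ n₀ := by
    obtain ⟨n, hn⟩ := pow_unbounded_of_one_lt Y4 (by norm_num : (1 : ℝ) < 2)
    exact ⟨n, hn.le⟩
  have h2 : ∀ m, n₀ ≤ m → Y4 ≤ L m := fun m hm =>
    hn₀.trans ((pow_le_pow_right₀ (by norm_num) hm).trans (L_geo hq m))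
  have h3 : ∀ᶠ n in (U : Filter ℕ), ∀ m ∈ Finset.range n₀,
      L m ^ 3 * |Z n (Sum.inl m) θ| ≤ X + 1 := by
    rw [Finset.eventually_all]
    intro m _
    have h4 : Tendsto (fun n => L m ^ 3 * |Z n (Sum.inl m) θ|) U
        (𝓝 (L m ^ 3 * |z (Sum.inl m) θ|)) := (hl (Sum.inl m) θ hθΘ).abs.const_mul _
    have h5 : L m ^ 3 * |z (Sum.inl m) θ| < X + 1 := lt_of_le_of_lt (hθ m) (by linarith)
    exact (h4.eventually (gt_mem_nhds h5)).mono fun n hn => hn.le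
  refine ⟨le_min (by linarith) (h0.trans h1), min_le_right _ _, max X2 Y, ?_⟩
  filter_upwards [hX2, h3, hY4] with n hn1 hn2 hn3 t ht m
  rcases le_total t θ with htθ | htθ
  · exact (hn1 t ⟨ht.1, htθ⟩ m).trans (le_max_left _ _)
  · have h7 : ∀ m, L m ^ 3 * |Z n (Sum.inl m) θ| ≤ X + 1 := by
      intro m
      rcases lt_or_ge m n₀ with hm | hm
      · exact hn2 m (Finset.mem_range.2 hm)
      · have h8 := hn3 θ ⟨h0, le_rfl⟩ m
        have h9 : L m * (L m ^ 3 * |Z n (Sum.inl m) θ|) ≤ L m * 1 := by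
          calc L m * (L m ^ 3 * |Z n (Sum.inl m) θ|) = L m ^ 4 * |Z n (Sum.inl m) θ| := by ring
            _ ≤ Y4 := h8
            _ ≤ L m * 1 := by rw [mul_one]; exact h2 m hm
        have h10 := le_of_mul_le_mul_left h9 (hpos m)
        linarith
    have hcs2 := xsol R hp (hZ n) (hb n) h0 (min_le_right (θ + δ) Θ) (a := θ)
    have h11 := hloc θ (min (θ + δ) Θ) _ _ (le_min (by linarith) h1) (min_le_left _ _) hcs2
      ⟨n, fun m hm t _ => (hZ n).zero (Sum.inl m) hm t⟩ h7 m t ⟨htθ, ht.2⟩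
    exact h11.trans (le_max_right _ _)

lemma mono {T T' : ℝ} {z : Ix J → ℝ → ℝ} (h : NSol S o σ τ D c g L T z) (hT : T' ≤ T) :
    NSol S o σ τ D c g L T' z := by
  refine ⟨fun i t ht => (h.deriv i t ⟨ht.1, ht.2.trans_le hT⟩).mono
    (Ico_subset_Ico_right hT), fun k T'' hT'' => h.reg k T'' (hT''.trans_le hT)⟩

end Bl

end

open Bl in
theorem t_BLOWN_of (hGAL : S_GAL2) (hBOOT : S_BOOT2) (hLIM : S_LIM2) (hPERS : S_PERS2)
    (hLOC : S_LOC2) (hODE : S_ODE2) (hPB : S_PB) (hUNI : S_UNI2) : S_BLOWN := by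
  intro J g o σ τ lm L C M ℓ₁ ℓ ρ E B D c β₁ K hq₁ hq R hD hE hβ₁
  obtain ⟨φ₁, hφ₁, T₁, hT₁, hode⟩ := hODE lm L C ℓ M B hq
  have hpos : ∀ m, 0 < L m := fun m => lt_of_lt_of_le one_pos (L_one hq m)
  set φ : ℕ → ℝ := fun n => min (φ₁ n) (Real.exp (-L n)) with hφdef
  have hφ0 : ∀ n, 0 < φ n := fun n => lt_min (hφ₁ n) (Real.exp_pos _)
  have hφ : ∀ k : ℕ, ∃ X, ∀ n, L n ^ k * φ n ≤ X := fun k =>
    ⟨k.factorial, fun n => (mul_le_mul_of_nonneg_left (min_le_right _ _)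
      (pow_pos (hpos n) k).le).trans (pow_exp k (hpos n).le)⟩
  obtain ⟨β₂, hβ₂, hs₂, hpb⟩ := hPB J g lm L C M ℓ₁ ℓ ρ E φ B D c K hq₁ hD hφ0
  set β : ℕ → ℝ := fun n => min (min (β₂ n) (β₁ n)) (Real.exp (-L n)) with hβdef
  have hβ0 : ∀ n, 0 < β n := fun n => lt_min (lt_min (hβ₂ n) (hβ₁ n)) (Real.exp_pos _)
  have hβ2 : ∀ n, β n ≤ β₂ n := fun n => (min_le_left _ _).trans (min_le_left _ _)
  have hβ1 : ∀ n, β n ≤ β₁ n := fun n => (min_le_left _ _).trans (min_le_right _ _)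
  have hβe : ∀ n, β n ≤ Real.exp (-L n) := fun n => min_le_right _ _
  have hs : Summable (fun j => β (g j)) :=
    Summable.of_nonneg_of_le (fun j => (hβ0 _).le) (fun j => hβ2 _) hs₂
  have hp : PBd g L C ℓ B D c φ β := fun z hz1 hz2 hz3 n hn =>
    hpb z hz1 hz2 (fun j => (hz3 j).trans (hβ2 _)) n hn
  set Θ : ℝ := T₁ + 1 with hΘ
  have hΘ0 : 0 < Θ := by linarith
  obtain ⟨S, hS1, hS⟩ := hBOOT J g o σ τ L C M ℓ ρ E B D c Θ β K R hD hΘ0 hβ0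
  choose Z hZ using hGAL J g o σ τ ℓ ρ E D c Θ S R hD K.anti hΘ0
  have hb : ∀ n j, ∀ t ∈ Icc (0 : ℝ) Θ, |Z n (Sum.inr j) t| ≤ β (g j) :=
    fun n j t ht => hS n (Z n) (hZ n) j t ht
  set U : Ultrafilter ℕ := Filter.hyperfilter ℕ with hU
  obtain ⟨z, hl, hinit, hen, hbz, hder⟩ := hLIM J g o σ τ lm L C M ℓ ρ E B D c Θ S
    (fun j => β (g j)) K hq R hD hΘ0 (fun j => (hβ0 _).le) hs Z hZ hb U
    Nat.hyperfilter_le_atTop
  -- the equation on the intervals of good times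
  have hgd : ∀ θ, Good Θ L U Z θ → ∀ i, ∀ t ∈ Icc 0 θ, HasDerivWithinAt (z i)
      (Kz S o σ τ (fun a => z a t) i - lin D (fun a => z a t) i + qd c (fun a => z a t) i)
      (Icc 0 θ) t := by
    intro θ hθ
    obtain ⟨Y, hY⟩ := hθ.pers hPERS hq hφ0 hφ R hp hZ hb 1
    refine hder θ hθ.1 hθ.2.1 ⟨Y, hY.mono fun n hn t ht m => ?_⟩
    have := hn t ht m
    rwa [pow_one] at this
  have hglim : ∀ θ, Good Θ L U Z θ → ∀ k : ℕ, ∃ Y, ∀ m, ∀ t ∈ Icc 0 θ,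
      L m ^ k * |z (Sum.inl m) t| ≤ Y := fun θ hθ k =>
    hθ.lim hPERS hq hφ0 hφ R hp hZ hb hl k
  have hgx : ∀ θ, Good Θ L U Z θ →
      XSol L C ℓ B φ 0 θ (fun m => z (Sum.inl m)) (pf L C ℓ B D c z) := fun θ hθ =>
    xsol_lim K hq hs hp hen hbz hθ.2.1 (hgd θ hθ) (hglim θ hθ 1)
  -- the good times are at most `T₁`
  have hle1 : ∀ θ, Good Θ L U Z θ → θ ≤ T₁ := by
    intro θ hθ
    rcases hθ.1.eq_or_lt with h0 | h0
    · rw [← h0]; exact hT₁.le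
    have hx := hgx θ hθ
    refine (hode θ (fun m => z (Sum.inl m)) (pf L C ℓ B D c z) h0 ?_ ?_ ?_ ?_ hinit.1
      hinit.2.1).1
    · intro n t ht
      have h1 := (hgd θ hθ (Sum.inl n) t ⟨ht.1, ht.2.le⟩).mono Ico_subset_Icc_self
      refine h1.congr_deriv ?_
      simp only [Kz, pf]
      ring
    · intro T' hT'
      obtain ⟨Y, hY⟩ := hglim θ hθ 10
      exact ⟨Y, fun t ht n => hY n t ⟨ht.1, ht.2.trans hT'.le⟩⟩
    · exact fun t ht => (hx.en t ⟨ht.1, ht.2.le⟩).2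
    · intro n t ht
      refine (hx.pert n t ⟨ht.1, ht.2.le⟩).trans ?_
      exact add_le_add (mul_le_mul_of_nonneg_right (min_le_left _ _) (abs_nonneg _))
        (min_le_left _ _)
  have hG0 : Good Θ L U Z 0 := good_zero hΘ0.le fun n => (hZ n).init
  set G : Set ℝ := {θ | Good Θ L U Z θ} with hG
  have hbdd : BddAbove G := ⟨T₁, fun θ hθ => hle1 θ hθ⟩
  set T := sSup G with hT
  have hTle : T ≤ T₁ := csSup_le ⟨0, hG0⟩ fun θ hθ => hle1 θ hθ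
  have hlt : ∀ θ, 0 ≤ θ → θ < T → Good Θ L U Z θ := by
    intro θ h0 h1
    obtain ⟨θ', h2, h3⟩ := exists_lt_of_lt_csSup ⟨0, hG0⟩ h1
    exact Good.mono h2 h0 h3.le
  have hTpos : 0 < T := by
    obtain ⟨δ, Y, hδ, hloc⟩ := hLOC lm L C ℓ M B φ hq hφ0 hφ (L 0 ^ 3 + 1)
    have h1 : Good Θ L U Z (min (0 + δ) Θ) := by
      refine Good.extend hPERS hq hφ0 hφ R hp hZ hb hl (pow_pos (hpos 0) 3).le hloc hδ hG0
        fun m => ?_
      rcases m with _ | m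
      · rw [hinit.1]; simp
      · rw [hinit.2.1]; simpa using (pow_pos (hpos 0) 3).le
    have h2 : 0 < min (0 + δ) Θ := lt_min (by linarith) hΘ0
    exact lt_of_lt_of_le h2 (le_csSup hbdd h1)
  have hsub : Ico 0 T ⊆ Icc (0 : ℝ) Θ := fun t ht => ⟨ht.1, by linarith [ht.2]⟩
  -- the limit is a regular solution on `[0, T)`
  have hdT : ∀ i, ∀ t ∈ Ico 0 T, HasDerivWithinAt (z i)
      (Kz S o σ τ (fun a => z a t) i - lin D (fun a => z a t) i + qd c (fun a => z a t) i)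
      (Ico 0 T) t := by
    intro i t ht
    obtain ⟨θ, h1, h2⟩ := exists_between ht.2
    have h3 := hgd θ (hlt θ (ht.1.trans h1.le) h2) i t ⟨ht.1, h1.le⟩
    refine h3.mono_of_mem_nhdsWithin ?_
    refine mem_nhdsWithin.2 ⟨Iio θ, isOpen_Iio, h1, ?_⟩
    rintro s ⟨hs1, hs2⟩
    exact ⟨hs2.1, le_of_lt hs1⟩
  have hK : NSol S o σ τ D c g L T z := by
    refine ⟨hdT, fun k T' hT' => ?_⟩
    rcases lt_or_ge T' 0 with h0 | h0
    · exact ⟨0, fun t ht => absurd (ht.1.trans ht.2) (not_le.2 h0)⟩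
    · obtain ⟨Y, hY⟩ := hglim T' (hlt T' h0 hT') k
      refine ⟨max Y k.factorial, fun t ht i => ?_⟩
      rcases i with n | j
      · exact (hY n t ht).trans (le_max_left _ _)
      · refine le_trans ?_ (le_max_right _ _)
        have h1 := hbz j t (hsub ⟨ht.1, ht.2.trans_lt hT'⟩)
        exact (mul_le_mul_of_nonneg_left (h1.trans (hβe _)) (pow_pos (hpos (g j)) k).le).trans
          (pow_exp k (hpos (g j)).le)
  -- the main modes are unbounded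
  have hunb : ∀ X : ℝ, ∃ t ∈ Ico 0 T, ∃ n, X < L n ^ 2 * |z (Sum.inl n) t| := by
    intro X
    by_contra hcon
    push Not at hcon
    obtain ⟨Y, hY⟩ := hPERS lm L C ℓ M B φ hq hφ0 hφ Θ 3 X
    have h1 : ∀ t ∈ Ico 0 T, ∀ n, L n ^ 3 * |z (Sum.inl n) t| ≤ |Y| := by
      intro t ht n
      have hg := hlt t ht.1 ht.2
      exact (hY t _ _ ht.1 hg.2.1 (hgx t hg) hinit.1 hinit.2.1
        (fun m s hs' => hcon s ⟨hs'.1, hs'.2.trans_lt ht.2⟩ m)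
        ((hglim t hg 3).imp fun X' hX' m s hs' => hX' m s hs') n t ⟨ht.1, le_rfl⟩).trans
        (le_abs_self _)
    obtain ⟨δ, Y', hδ, hloc⟩ := hLOC lm L C ℓ M B φ hq hφ0 hφ (|Y| + 1)
    set θ := max 0 (T - δ / 2) with hθ
    have hθ0 : 0 ≤ θ := le_max_left _ _
    have hθT : θ < T := max_lt hTpos (by linarith)
    have h2 := Good.extend hPERS hq hφ0 hφ R hp hZ hb hl (abs_nonneg Y) hloc hδ
      (hlt θ hθ0 hθT) (h1 θ ⟨hθ0, hθT⟩)
    have h3 : min (θ + δ) Θ ≤ T := le_csSup hbdd h2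
    have h4 : T < min (θ + δ) Θ := by
      refine lt_min ?_ (by linarith)
      have := le_max_right 0 (T - δ / 2)
      linarith
    linarith
  have huni := hUNI J g o σ τ lm L C M ℓ ρ E B D c S
  refine ⟨S, hS1, T, z, hTpos, hK, hinit, ?_, fun t ht => hen t (hsub ht), fun t ht => ?_,
    fun w t ht => (hbz w t (hsub ht)).trans (hβ1 _), ?_⟩
  · intro T' z' hT' hK' hi'
    have hi0 : ∀ i, z' i 0 = z i 0 := by
      rintro (n | j)
      · rcases n with _ | n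
        · rw [hi'.1, hinit.1]
        · rw [hi'.2.1, hinit.2.1]
      · rw [hi'.2.2, hinit.2.2]
    have heq : ∀ i, ∀ t ∈ Ico 0 (min T' T), z' i t = z i t :=
      (huni (min T' T) K hq R hD hE).2 z' z (Bl.mono hK' (min_le_left _ _))
        (Bl.mono hK (min_le_right _ _)) hi0
    have hle : T' ≤ T := by
      by_contra hcon
      rw [not_le] at hcon
      rw [min_eq_right hcon.le] at heq
      obtain ⟨X, hX⟩ := hK'.reg 2 T hcon
      obtain ⟨t, ht, n, hn⟩ := hunb X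
      have h5 := hX t ⟨ht.1, ht.2.le⟩ (Sum.inl n)
      rw [heq _ t ht] at h5
      exact absurd h5 (not_le.2 hn)
    refine ⟨hle, fun i t ht => ?_⟩
    rw [min_eq_left hle] at heq
    exact heq i t ht
  · exact ((huni T K hq R hD hE).1 z hK t ht).2
  · have hx : ∀ t ∈ Ico 0 T, XSol L C ℓ B φ 0 t (fun m => z (Sum.inl m)) (pf L C ℓ B D c z) :=
      fun t ht => hgx t (hlt t ht.1 ht.2)
    rcases (hode T (fun m => z (Sum.inl m)) (pf L C ℓ B D c z) hTpos (fun n t ht => by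
        refine (hdT (Sum.inl n) t ht).congr_deriv ?_
        simp only [Kz, pf]
        ring) (fun T' hT' => by
        obtain ⟨X, hX⟩ := hK.reg 10 T' hT'
        exact ⟨X, fun t ht n => hX t ht (Sum.inl n)⟩)
      (fun t ht => ((hx t ht).en t ⟨ht.1, le_rfl⟩).2) (fun n t ht => by
        refine ((hx t ht).pert n t ⟨ht.1, le_rfl⟩).trans ?_
        exact add_le_add (mul_le_mul_of_nonneg_right (min_le_left _ _) (abs_nonneg _))
          (min_le_left _ _)) hinit.1 hinit.2.1).2 with h | ⟨n₀, h⟩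
    · exact h
    · exfalso
      obtain ⟨t, ht, n, hn⟩ := hunb (1 + L (n₀ + 1) ^ 2)
      have h1 : |z (Sum.inl n) t| ≤ 1 :=
        abs_le_one (hen t (hsub ht)).1 (hen t (hsub ht)).2 (Sum.inl n)
      rcases le_or_gt n (n₀ + 1) with hnn | hnn
      · have h2 : L n ^ 2 * |z (Sum.inl n) t| ≤ L (n₀ + 1) ^ 2 * 1 :=
          mul_le_mul (pow_le_pow_left₀ (hpos n).le (L_mono hq hnn) 2) h1 (abs_nonneg _)
            (pow_pos (hpos _) 2).le
        linarith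
      · have h2 := h t ht n (by omega)
        obtain ⟨m, rfl⟩ : ∃ m, n = m + 1 := ⟨n - 1, by omega⟩
        rw [Nat.add_sub_cancel] at h2
        have h3 : L (m + 1) ^ 2 ≤ Real.exp (lm m / 10 ^ 6) := by
          have h4 := hq.exp_big m
          have h5 : L (m + 1) ≤ L (m + 5) * M (m + 5) := by
            have h6 := L_mono hq (show m + 1 ≤ m + 5 by omega)
            have h7 := hq.M_one (m + 5)
            have h8 := hpos (m + 5)
            nlinarith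
          have h9 : 1 ≤ L (m + 5) * M (m + 5) := (L_one hq (m + 1)).trans h5
          calc L (m + 1) ^ 2 ≤ (L (m + 5) * M (m + 5)) ^ 2 :=
                pow_le_pow_left₀ (hpos _).le h5 2
            _ ≤ (L (m + 5) * M (m + 5)) ^ 10 := pow_le_pow_right₀ h9 (by norm_num)
            _ ≤ _ := h4
        have h10 : (0 : ℝ) ≤ lm m := le_trans (by norm_num) (hq.lm_big m)
        have h11 : L (m + 1) ^ 2 * |z (Sum.inl (m + 1)) t| ≤ 1 := by
          calc L (m + 1) ^ 2 * |z (Sum.inl (m + 1)) t|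
              ≤ Real.exp (lm m / 10 ^ 6) * Real.exp (-(lm m / 200)) :=
                mul_le_mul h3 h2 (abs_nonneg _) (Real.exp_pos _).le
            _ = Real.exp (lm m / 10 ^ 6 + -(lm m / 200)) := (Real.exp_add _ _).symm
            _ ≤ 1 := by
                rw [Real.exp_le_one_iff]
                linarith
        have h12 := pow_pos (hpos (n₀ + 1)) 2
        linarith

end Pool.Agent.Y6.N
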