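import Pool.Agent.Y6.K.Defs

/-!
Definitions for the Navier-Stokes equations with an additional skew-adjoint linear term
(periodic, odd fields, written with sine series; the viscous term is exactly `ν Δ`).
-/

open Set Filter Topology MeasureTheory

set_option autoImplicit false

namespace Pool.Agent.Y6.N

open Pool.Agent.Y5 Pool.Agent.Y5.D
open Pool.Agent.Y6.K (Kz lv)

/-! ### Abstract systems -/

/-- Rotations of the other modes: in the pairs `{j, σ j}`. -/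
structure Rot {J : Type} (o : J → ℕ) (σ : J → J) (τ : J → ℝ) : Prop where
  inv : ∀ j, σ (σ j) = j
  grp : ∀ j, o (σ j) = o j
  skew : ∀ j, τ (σ j) = -τ j
  unit : ∀ j, τ j ^ 2 = 1
  fin : ∀ m, {j | o j ≤ m}.Finite

/-- the linear dissipative term -/
noncomputable def lin {I : Type} (D : I → I → ℝ) (z : I → ℝ) (i : I) : ℝ := ∑' b, D i b * z b

/-- The matrix of the dissipation: symmetric, block diagonal (in the groups), coercive. -/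
structure Dis {J : Type} (g : J → ℕ) (ℓ ρ E : ℕ → ℝ) (D : Ix J → Ix J → ℝ) : Prop where
  symm : ∀ a b, D a b = D b a
  blk : ∀ a b, D a b ≠ 0 → gr g a = gr g b
  size : ∀ a b, |D a b| ≤ E (gr g a)
  diag : ∀ n, D (Sum.inl n) (Sum.inl n) = ℓ n
  coer : ∀ (s : Finset (Ix J)) (z : Ix J → ℝ),
    ∑ a ∈ s, ρ (gr g a) * z a ^ 2 ≤ ∑ a ∈ s, ∑ b ∈ s, D a b * z a * z b
  ρ0 : ∀ n, 0 ≤ ρ n
  ρinf : Tendsto ρ atTop atTop

/-- Conditions on the parameters (those of `Y5.D.Seq` without the last one). -/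
structure Seq (lm L C ℓ M : ℕ → ℝ) (B : ℕ → ℕ → ℝ) : Prop where
  L0 : 1 ≤ L 0
  lm_succ : ∀ n, lm (n + 1) * L n = L (n + 1)
  lm_big : ∀ n, 10 ^ 30 ≤ lm n
  lm_grow : ∀ n : ℕ, 100 * ((n : ℝ) + 1) * lm n ≤ lm (n + 1)
  M_one : ∀ n, 1 ≤ M n
  M_mono : ∀ n, M n ≤ M (n + 1)
  M_le : ∀ n, M (n + 1) ≤ L n ^ 4
  exp_big : ∀ n, (L (n + 5) * M (n + 5)) ^ 10 ≤ Real.exp (lm n / 10 ^ 6)
  C_lo : ∀ n, Real.exp (-(201 / 10000 * lm n)) ≤ C n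
  C_hi : ∀ n, C n ≤ Real.exp (-(199 / 10000 * lm n))
  B_lo : ∀ i n, i < n → 999 / 1000 ≤ B i n
  B_hi : ∀ i n, i < n → B i n ≤ 1001 / 1000
  ℓ_nonneg : ∀ n, 0 ≤ ℓ n
  ℓ_zero : 10 ^ 6 * (ℓ 0 * lm 0) ≤ L 0
  ℓ_succ : ∀ n, 10 ^ 6 * ℓ (n + 1) ≤ L n * (9 / 1000) ^ n

/-- Solutions of the truncated system (modes of the levels `≤ N`) on `[0, Θ]`. -/
structure TSol {J : Type} (Θ : ℝ) (S : ℕ → ℝ) (o : J → ℕ) (σ : J → J) (τ : J → ℝ)
    (D : Ix J → Ix J → ℝ) (c : Ix J → Ix J → Ix J → ℝ) (N : ℕ) (z : Ix J → ℝ → ℝ) : Prop where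
  zero : ∀ i, N < lv o i → ∀ t, z i t = 0
  deriv : ∀ i, lv o i ≤ N → ∀ t ∈ Icc (0 : ℝ) Θ, HasDerivWithinAt (z i)
    (Kz S o σ τ (fun a => z a t) i - lin D (fun a => z a t) i + qd c (fun a => z a t) i)
    (Icc 0 Θ) t
  init : Init z
  energy : ∀ t ∈ Icc (0 : ℝ) Θ, ∑' a, z a t ^ 2 ≤ 1

/-- Regular solutions of the full system on `[0, T)`. -/
structure NSol {J : Type} (S : ℕ → ℝ) (o : J → ℕ) (σ : J → J) (τ : J → ℝ)
    (D : Ix J → Ix J → ℝ) (c : Ix J → Ix J → Ix J → ℝ) (g : J → ℕ) (L : ℕ → ℝ) (T : ℝ)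
    (z : Ix J → ℝ → ℝ) : Prop where
  deriv : ∀ i, ∀ t ∈ Ico 0 T, HasDerivWithinAt (z i)
    (Kz S o σ τ (fun a => z a t) i - lin D (fun a => z a t) i + qd c (fun a => z a t) i)
    (Ico 0 T) t
  reg : ∀ k : ℕ, ∀ T' < T, ∃ X, ∀ t ∈ Icc 0 T', ∀ i, L (gr g i) ^ k * |z i t| ≤ X

/-- Solutions of the perturbed main system on `[a, b]` (some modes may be zero). -/
structure XSol (L C ℓ : ℕ → ℝ) (B : ℕ → ℕ → ℝ) (φ : ℕ → ℝ) (a b : ℝ)
    (x f : ℕ → ℝ → ℝ) : Prop where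
  deriv : ∀ n, (∀ t ∈ Icc a b, x n t = 0) ∨ ∀ t ∈ Icc a b,
    HasDerivWithinAt (x n) (vf3 L C ℓ B (fun m => x m t) n + f n t) (Icc a b) t
  pert : ∀ n, ∀ t ∈ Icc a b, |f n t| ≤ φ 0 * |x n t| + φ n
  en : ∀ t ∈ Icc a b, Summable (fun n => x n t ^ 2) ∧ ∑' n, x n t ^ 2 ≤ 1

/-! ### Fields -/

/-- the matrix of `-ν Δ` in the system `e` -/
noncomputable def Dm {J : Type} (ν : ℝ) (e : Ix J → Fam) (a b : Ix J) : ℝ :=
  ν * ((2 * Real.pi) ^ 2 * ∑' k, ‖vec k‖ ^ 2 * inner ℝ (e a k) (e b k))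

/-- `∫ ∇v : ∇w` over the unit cube -/
noncomputable def dirb (v w : E3 → E3) : ℝ :=
  ∫ y in cube, ∑ i : Fin 3, inner ℝ (fderiv ℝ v y (EuclideanSpace.single i 1))
    (fderiv ℝ w y (EuclideanSpace.single i 1))

/-- The skew-adjoint linear operator `K = ∑ s i ⟨·, e (σ i)⟩ e i`: here `e i` is a complete
orthonormal system of divergence-free trigonometric polynomials (odd fields), `σ` is an
involution and `s (σ i) = - s i`. -/
structure Skew {ι : Type} (e : ι → E3 → E3) (σ : ι → ι) (s : ι → ℝ) : Prop where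
  field : ∀ i, ∃ V : Fam, OT V ∧ {k | V k ≠ 0}.Finite ∧ e i = fieldOf V
  orth : ∀ i j, (i = j → ip (e i) (e j) = 1) ∧ (i ≠ j → ip (e i) (e j) = 0)
  compl : ∀ v, PF v → (∀ i, ip v (e i) = 0) → ∀ y, v y = 0
  inv : ∀ i, σ (σ i) = i
  skew : ∀ i, s (σ i) = -s i

/-- Smooth solutions on `[0, T)` of `∂ₜ u + (u · ∇) u + ∇p = ν Δ u + K u`, `div u = 0`
(tested with the complete system `e`; the Fourier coefficients decrease rapidly, locally uniformly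
in time, i.e. all derivatives in space are bounded on `[0, T']` for `T' < T`). -/
structure SolN {ι : Type} (ν : ℝ) (e : ι → E3 → E3) (σ : ι → ι) (s : ι → ℝ) (T : ℝ)
    (u : ℝ → E3 → E3) : Prop where
  reg : ∃ V : ℝ → Fam, (∀ t ∈ Ico 0 T, OT (V t) ∧ u t = fieldOf (V t)) ∧
    ∀ m : ℕ, ∀ T' < T, ∃ M, ∀ t ∈ Icc 0 T', ∀ k, ‖vec k‖ ^ m * ‖V t k‖ ≤ M
  eqn : ∀ i, ∀ t ∈ Ico 0 T, HasDerivWithinAt (fun τ => ip (u τ) (e i))
    (s i * ip (u t) (e (σ i)) - ν * dirb (u t) (e i) - cnv (u t) (e i)) (Ico 0 T) t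

end Pool.Agent.Y6.N
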