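import Pool.Agent.Y6.N.Blow
import Pool.Agent.Y6.N.P7
import Pool.Agent.Y141.NSK.AVG
import Pool.Agent.Y239.NSK.Gal
import Pool.Agent.Y301.NSK.BOOT
import Pool.Agent.Y665.NSK.Lim
import Pool.Agent.Y145.NSK.Pers
import Pool.Agent.Y891.NSK.PB
import Pool.Agent.Y939.NSK.Uni
import Pool.Agent.Y638.NSK.Conc
import Pool.Agent.Y153.NSK.FLDB
import Pool.Agent.Y960.NSK.Phys
import Pool.Agent.Y5.D.Main2

/-! The Navier-Stokes equations with an additional skew-adjoint linear term. -/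

set_option autoImplicit false

namespace Pool.Agent.Y6.N

theorem t_BLOWN : S_BLOWN :=
  t_BLOWN_of Pool.Agent.Y239.NSK.t_GAL2
    (Pool.Agent.Y301.NSK.t_BOOT2 Pool.Agent.Y141.NSK.AVG.t_AVG2) Pool.Agent.Y665.NSK.t_LIM2
    Pool.Agent.Y145.NSK.t_PERS2 Pool.Agent.Y145.NSK.t_LOC2 t_ODE2 Pool.Agent.Y891.NSK.t_PB
    Pool.Agent.Y939.NSK.t_UNI2

theorem t_MAINN : S_MAINN :=
  Pool.Agent.Y960.NSK.t_PHYSN Pool.Agent.Y691.ND.t_FLD Pool.Agent.Y153.NSK.t_FLDB t_BLOWN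
    (Pool.Agent.Y638.NSK.t_CONCN Pool.Agent.Y5.D.t_CONC)

end Pool.Agent.Y6.N
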