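import Pool.Agent.Y6.N.P4

/-! The dynamics during one stage. -/

open Set Filter Topology MeasureTheory

set_option autoImplicit false

namespace Pool.Agent.Y6.N

open Pool.Agent.Y5 Pool.Agent.Y5.D

lemma rder2 {X Z c L v0 v1 : ℝ} (hX : 0 < X) (hc : 0 < c) (hL : 0 < L)
    (hZ : -(c / 4 * X) ≤ Z)
    (h1 : (1 - 2 / 10 ^ 5) * (c * L * X ^ 2) + L * X * Z - 2 / 1000 * (L * X * |Z|) ≤ v1)
    (h0 : v0 ≤ 1 / 1000 * L * X ^ 2) (h0' : -(1 / 1000 * L * X ^ 2) ≤ v0) :
    997 / 1000 * (L * X * (Z / X + 99 / 100 * c)) ≤ (v1 * X - Z * v0) / X ^ 2 := by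
  rw [le_div_iff₀ (by positivity)]
  have h2 := mul_le_mul_of_nonneg_right h1 hX.le
  have e : 997 / 1000 * (L * X * (Z / X + 99 / 100 * c)) * X ^ 2
      = 997 / 1000 * (L * X ^ 2 * (Z + 99 / 100 * c * X)) := by field_simp
  have h4 : 0 ≤ c * L * X ^ 3 := by positivity
  rw [e]
  rcases le_total 0 Z with h5 | h5
  · rw [abs_of_nonneg h5] at h2
    have h3 := mul_le_mul_of_nonneg_left h0 h5
    nlinarith
  · rw [abs_of_nonpos h5] at h2
    have h3 := mul_le_mul_of_nonneg_left h0' (neg_nonneg.2 h5)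
    have h6 : 0 ≤ L * X ^ 2 * (Z + c / 4 * X) := by
      have : 0 ≤ Z + c / 4 * X := by linarith
      positivity
    nlinarith

namespace Gd

variable {lm L C ℓ M : ℕ → ℝ} {B : ℕ → ℕ → ℝ} {T : ℝ} {x f : ℕ → ℝ → ℝ}
variable {n : ℕ} {σ a : ℕ → ℝ} {t1 : ℝ}

lemma eta2 (q : Seq lm L C ℓ M B) (n : ℕ) :
    eta lm (n + 1) ^ 2 ≤ Real.exp (-(176 / 100) * lm n) := by
  have h1 : eta lm (n + 1) ^ 2 = Real.exp (-(176 / 10000) * lm (n + 1)) := by
    rw [eta, ← Real.exp_nat_mul]; congr 1; push_cast; ring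
  rw [h1]
  refine (exp_next q n (by norm_num)).trans (le_of_eq ?_)
  congr 1; ring

lemma Xpos (h : Stg lm L T x n σ a) (hc : Cur lm L T x n σ a t1) {t : ℝ}
    (ht : t ∈ Ico (σ n) t1) : 0 < x n t := by
  have ha := apos h n le_rfl
  exact (by positivity : 0 < 9 / 10 * a n).trans (hc.act t ht).2

lemma Zabs (g : Gd lm L C ℓ M B T x f) (h : Stg lm L T x n σ a)
    (hc : Cur lm L T x n σ a t1) {t : ℝ} (ht : t ∈ Ico (σ n) t1) :
    |x (n + 1) t| ≤ 1 / 100 * x n t := by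
  have h0 : 0 ≤ σ n := σnn h le_rfl
  have h1 := (hc.act t ht).1
  have hX := Xpos h hc ht
  have h2 := g.sq_le (t := t) ⟨h0.trans ht.1, ht.2.trans_le hc.leT⟩ (le_refl (n + 1))
  exact abs_le_of_sq_le_sq (h2.trans h1.le) (by positivity)

lemma GX (g : Gd lm L C ℓ M B T x f) (h : Stg lm L T x n σ a)
    (hc : Cur lm L T x n σ a t1) {t : ℝ} (ht : t ∈ Ico (σ n) t1) :
    L n * a n ≤ 10 / 9 * (L n * x n t) ∧ 9 / 10 ≤ L n * x n t := by
  have h1 := (hc.act t ht).2
  have hL := sLp g.sq n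
  have h3 : L n * a n ≤ 10 / 9 * (L n * x n t) := by nlinarith
  refine ⟨h3, ?_⟩
  have := g.G1 h n le_rfl
  linarith

/-- lower bound for `C n * L n * X ^ 2` -/
lemma CWX (g : Gd lm L C ℓ M B T x f) (h : Stg lm L T x n σ a)
    (hc : Cur lm L T x n σ a t1) {t : ℝ} (ht : t ∈ Ico (σ n) t1) :
    Real.exp (-(21 / 1000) * lm n) ≤ 1 / 10 ^ 6 * (C n * L n * x n t ^ 2) := by
  have q := g.sq
  obtain ⟨_, h1⟩ := g.GX h hc ht
  have h2 := (hc.act t ht).2
  have ha := apos h n le_rfl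
  have hE := EE_pos (lm := lm) n
  have hEb := EE_big q n
  have h3 := g.aE h n le_rfl
  have hX := Xpos h hc ht
  have hL := sLp q n
  have hCp := sCp q n
  have hC := C_lo' q n
  have h4 : 8 / 10 ≤ EE lm n * (L n * x n t ^ 2) := by
    calc (8 : ℝ) / 10 ≤ 9 / 10 * (9 / 10 * 1) := by norm_num
      _ ≤ 9 / 10 * (9 / 10 * (EE lm n * a n)) := by gcongr
      _ = EE lm n * (9 / 10 * (9 / 10 * a n)) := by ring
      _ ≤ EE lm n * ((L n * x n t) * x n t) := by gcongr
      _ = _ := by ring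
  have h5 : EE lm n * 10 ^ 6 * Real.exp (-(21 / 1000) * lm n) ≤ 8 / 10 * C n := by
    have h6 : EE lm n ^ 3 * Real.exp (-(21 / 1000) * lm n) ≤ Real.exp (-(201 / 10000) * lm n) :=
      EE_exp q n 3 (by norm_num)
    have h7 : EE lm n * 10 ^ 6 ≤ 8 / 10 * EE lm n ^ 3 := by
      have : (10 : ℝ) ^ 6 ≤ 8 / 10 * EE lm n ^ 2 := by nlinarith
      calc EE lm n * 10 ^ 6 ≤ EE lm n * (8 / 10 * EE lm n ^ 2) := by gcongr
        _ = _ := by ring
    calc EE lm n * 10 ^ 6 * Real.exp (-(21 / 1000) * lm n)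
        ≤ 8 / 10 * EE lm n ^ 3 * Real.exp (-(21 / 1000) * lm n) := by gcongr
      _ = 8 / 10 * (EE lm n ^ 3 * Real.exp (-(21 / 1000) * lm n)) := by ring
      _ ≤ 8 / 10 * C n := by gcongr; exact h6.trans hC
  have h8 : (EE lm n * 10 ^ 6) * Real.exp (-(21 / 1000) * lm n)
      ≤ (EE lm n * 10 ^ 6) * (1 / 10 ^ 6 * (C n * L n * x n t ^ 2)) := by
    calc (EE lm n * 10 ^ 6) * Real.exp (-(21 / 1000) * lm n) ≤ 8 / 10 * C n := h5
      _ ≤ (EE lm n * (L n * x n t ^ 2)) * C n := by gcongr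
      _ = _ := by ring
  exact le_of_mul_le_mul_left h8 (by positivity)

/-- the numerical facts during a stage -/
lemma smalls (g : Gd lm L C ℓ M B T x f) (h : Stg lm L T x n σ a)
    (hc : Cur lm L T x n σ a t1) {t : ℝ} (ht : t ∈ Ico (σ n) t1) :
    ℓ (n + 1) ≤ 1 / 10 ^ 5 * (L n * x n t) ∧ ph lm 0 ≤ 1 / 10 ^ 5 * (L n * x n t) ∧
    1001 / 1000 * U L x n t ≤ 1 / 10 ^ 5 * (L n * x n t) ∧
    C (n + 1) * L (n + 1) ≤ 1 / 10 ^ 5 * (L n * x n t) ∧
    1001 / 1000 * L (n + 1) * eta lm (n + 1) ^ 2 ≤ 1 / 10 ^ 5 * (C n * L n * x n t ^ 2) ∧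
    ph lm (n + 1) ≤ 1 / 10 ^ 5 * (C n * L n * x n t ^ 2) ∧
    src L C x n t ≤ 1 / 10 ^ 5 * (L n * x n t ^ 2) ∧
    ph lm n ≤ 1 / 10 ^ 5 * (L n * x n t ^ 2) ∧
    ℓ n ≤ 1 / 10 ^ 5 * (L n * x n t) := by
  have q := g.sq
  obtain ⟨hGX, hW⟩ := g.GX h hc ht
  have hX := Xpos h hc ht
  have hL := sLp q n
  have hCp := sCp q n
  have hCWX := g.CWX h hc ht
  have hE := EE_pos (lm := lm) n
  have hEb := EE_big q n
  have ha := apos h n le_rfl
  have hlm := slm q n
  have hlmb := q.lm_big n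
  refine ⟨?_, ?_, ?_, ?_, ?_, ?_, ?_, ?_, ?_⟩
  · have h1 := q.ℓ_succ n
    have h2 : L n * (9 / 1000) ^ n ≤ L n * a n := by
      gcongr; exact alow h n le_rfl
    linarith
  · have := ph_small0 q 0
    linarith
  · have h1 := (g.UB h hc.leT hc.le n le_rfl).1 t ht
    have h2 : 121 / lm n ≤ 1 / 10 ^ 7 := by
      rw [div_le_div_iff₀ hlm (by positivity)]; linarith
    have h3 : 121 / lm n * (L n * a n) ≤ 1 / 10 ^ 7 * (10 / 9 * (L n * x n t)) := by gcongr
    linarith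
  · have h1 := C_small q (n + 1) 1 (by norm_num)
    have h2 := EE_L q (k := n + 1) (n := n + 1) (by omega)
    have h3 := sCp q (n + 1)
    have h4 : C (n + 1) * L (n + 1) ≤ EE lm (n + 1) ^ 1 * C (n + 1) := by
      rw [pow_one, mul_comm]; gcongr
    linarith
  · have h1 := eta2 q n
    have h2 := EE_L q (k := n + 1) (n := n) (by omega)
    have h2' := sLp q (n + 1)
    have h3 : 1001 / 1000 * L (n + 1) * eta lm (n + 1) ^ 2
        ≤ EE lm n ^ 2 * Real.exp (-(176 / 100) * lm n) := by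
      calc 1001 / 1000 * L (n + 1) * eta lm (n + 1) ^ 2
          ≤ EE lm n * EE lm n * Real.exp (-(176 / 100) * lm n) := by
            gcongr; linarith
        _ = _ := by ring
    have h4 : EE lm n ^ 2 * Real.exp (-(176 / 100) * lm n) ≤ Real.exp (-(21 / 1000) * lm n) :=
      EE_exp q n 2 (by norm_num)
    have h5 : 0 ≤ C n * L n * x n t ^ 2 := by positivity
    linarith
  · have h1 : ph lm (n + 1) ≤ Real.exp (-(21 / 1000) * lm n) := by
      rw [ph_eq]
      refine (exp_next q n (by norm_num)).trans (Real.exp_le_exp.2 ?_)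
      nlinarith
    have h5 : 0 ≤ C n * L n * x n t ^ 2 := by positivity
    linarith
  · unfold src
    split_ifs with hn
    · positivity
    · have h3 := (g.UB h hc.leT hc.le (n - 1) (by omega)).2.2 (by omega) t (by
        rw [Nat.sub_add_cancel (by omega)]; exact ht)
      rw [Nat.sub_add_cancel (by omega)] at h3
      have h0 : 0 ≤ σ n := σnn h le_rfl
      have h4 := g.abs_le_sqrt (t := t) ⟨h0.trans ht.1, ht.2.trans_le hc.leT⟩ (le_refl (n - 1))
      have h5 := (hc.act t ht).2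
      have h6 : x (n - 1) t ^ 2 ≤ (120 * (10 / 9 * x n t)) ^ 2 := by
        rw [← sq_abs]; gcongr; refine h4.trans (h3.trans ?_); linarith
      have h7 := C_small0 q (n - 1)
      have h8 := sLp q (n - 1)
      have h9 := sCp q (n - 1)
      have h10 : L (n - 1) ≤ L n := sLmono q (by omega)
      calc L (n - 1) * C (n - 1) * x (n - 1) t ^ 2
          ≤ L n * (1 / 10 ^ 20) * (120 * (10 / 9 * x n t)) ^ 2 := by gcongr
        _ = (1 / 10 ^ 20 * (120 * (10 / 9)) ^ 2) * (L n * x n t ^ 2) := by ring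
        _ ≤ 1 / 10 ^ 5 * (L n * x n t ^ 2) :=
            mul_le_mul_of_nonneg_right (by norm_num) (by positivity)
  · have h1 := ph_small q n 2 (by norm_num)
    have h3 := g.aE h n le_rfl
    have h5 := (hc.act t ht).2
    have h4 : 8 / 10 ≤ EE lm n * (L n * x n t ^ 2) := by
      calc (8 : ℝ) / 10 ≤ 9 / 10 * (9 / 10 * 1) := by norm_num
        _ ≤ 9 / 10 * (9 / 10 * (EE lm n * a n)) := by gcongr
        _ = EE lm n * (9 / 10 * (9 / 10 * a n)) := by ring
        _ ≤ EE lm n * ((L n * x n t) * x n t) := by gcongr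
        _ = _ := by ring
    have h6 := ph_pos lm n
    have h7 : EE lm n ^ 2 * ph lm n * 1 ≤ 1 / 10 ^ 20 * (2 * (EE lm n * (L n * x n t ^ 2))) := by
      gcongr; linarith
    have h8 : EE lm n * (EE lm n * ph lm n) ≤ EE lm n * (2 / 10 ^ 20 * (L n * x n t ^ 2)) := by
      linarith
    have h9 := le_of_mul_le_mul_left h8 hE
    have h10 : ph lm n ≤ EE lm n * ph lm n := by nlinarith
    have h11 : 0 ≤ L n * x n t ^ 2 := by positivity
    linarith
  · have h1 := g.vis h n le_rfl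
    have h2 : ℓ n * 10 ^ 30 ≤ ℓ n * lm n := by
      have := q.ℓ_nonneg n
      gcongr
    have h3 : 0 < L n * x n t := by positivity
    linarith

/-- lower bound for the growth of the next mode -/
lemma Zder (g : Gd lm L C ℓ M B T x f) (h : Stg lm L T x n σ a)
    (hc : Cur lm L T x n σ a t1) {t : ℝ} (ht : t ∈ Ico (σ n) t1)
    (hY : √(Y x (n + 2) t) ≤ eta lm (n + 1)) :
    (1 - 2 / 10 ^ 5) * (C n * L n * x n t ^ 2) + L n * x n t * x (n + 1) t
      - 2 / 1000 * (L n * x n t * |x (n + 1) t|)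
      ≤ vf3 L C ℓ B (fun k => x k t) (n + 1) + f (n + 1) t := by
  have q := g.sq
  have h0 : 0 ≤ σ n := σnn h le_rfl
  have htI : t ∈ Ico 0 T := ⟨h0.trans ht.1, ht.2.trans_le hc.leT⟩
  obtain ⟨s1, s2, s3, s4, s5, s6, s7, s8, s9⟩ := g.smalls h hc ht
  have hX := Xpos h hc ht
  have hL := sLp q n
  have hL1 := sLp q (n + 1)
  have hC1 := sCp q (n + 1)
  have hCp := sCp q n
  set X := x n t with hXd
  set Z := x (n + 1) t with hZd
  set W := L n * X with hW
  have hWp : 0 < W := by positivity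
  have hZ0 := abs_nonneg Z
  have hYb : Y x (n + 1 + 1) t ≤ eta lm (n + 1) ^ 2 := by
    calc Y x (n + 1 + 1) t = √(Y x (n + 2) t) ^ 2 := (Real.sq_sqrt (Y_nonneg _ _)).symm
      _ ≤ _ := by gcongr
  -- strain
  have hst : W * Z - (1001 / 10 ^ 6 + 1 / 10 ^ 4) * (W * |Z|)
      ≤ Z * ∑ i ∈ Finset.range (n + 1), L i * B i (n + 1) * x i t := by
    rw [Finset.sum_range_succ]
    have h3 := strain (x := x) q (m := n) (k := n + 1) (by omega) t
    have hBl := q.B_lo n (n + 1) (by omega)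
    have hBh := q.B_hi n (n + 1) (by omega)
    set S := ∑ i ∈ Finset.range n, L i * B i (n + 1) * x i t with hS
    have h4 : |S| ≤ 1 / 10 ^ 5 * W := h3.trans s3
    have h5 : |Z * S| ≤ 1 / 10 ^ 5 * W * |Z| := by
      rw [abs_mul, mul_comm]; gcongr
    have h6 : |Z * (W * (B n (n + 1) - 1))| ≤ 1 / 1000 * W * |Z| := by
      rw [abs_mul, abs_mul, abs_of_pos hWp]
      have : |B n (n + 1) - 1| ≤ 1 / 1000 := by rw [abs_le]; constructor <;> linarith
      calc |Z| * (W * |B n (n + 1) - 1|) ≤ |Z| * (W * (1 / 1000)) := by gcongr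
        _ = _ := by ring
    have h7 := neg_le_of_abs_le h5
    have h8 := neg_le_of_abs_le h6
    have e : Z * (S + L n * B n (n + 1) * x n t) = Z * S + Z * (W * (B n (n + 1) - 1)) + W * Z := by
      rw [hW, hXd]; ring
    rw [e]
    have : 0 ≤ W * |Z| := by positivity
    linarith
  -- the other terms
  obtain ⟨_, _, h3, h4⟩ := g.vf_terms htI (n + 1)
  have h5 : L (n + 1) * ∑' k : ℕ, B (n + 1) (n + 1 + 1 + k) * x (n + 1 + 1 + k) t ^ 2
      ≤ 1 / 10 ^ 5 * (C n * L n * X ^ 2) := by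
    refine h3.trans (le_trans ?_ s5)
    gcongr
  have h6 : L (n + 1) * C (n + 1) * Z * x (n + 1 + 1) t ≤ 1 / 10 ^ 5 * (W * |Z|) := by
    refine (le_abs_self _).trans (h4.trans ?_)
    have h7 := g.abs_le_one htI (n + 1 + 1)
    calc C (n + 1) * L (n + 1) * |x (n + 1 + 1) t| * |Z|
        ≤ C (n + 1) * L (n + 1) * 1 * |Z| := by gcongr
      _ = (C (n + 1) * L (n + 1)) * |Z| := by ring
      _ ≤ (1 / 10 ^ 5 * W) * |Z| := by gcongr
      _ = _ := by ring
  have h7 : ℓ (n + 1) * Z ≤ 1 / 10 ^ 5 * (W * |Z|) := by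
    calc ℓ (n + 1) * Z ≤ ℓ (n + 1) * |Z| := by
          have := q.ℓ_nonneg (n + 1)
          gcongr
          exact le_abs_self _
      _ ≤ (1 / 10 ^ 5 * W) * |Z| := by gcongr
      _ = _ := by ring
  have h8 := neg_le_of_abs_le (g.hf (n + 1) t htI)
  have h9 : ph lm 0 * |Z| ≤ 1 / 10 ^ 5 * (W * |Z|) := by
    calc ph lm 0 * |Z| ≤ (1 / 10 ^ 5 * W) * |Z| := by gcongr
      _ = _ := by ring
  have hvf : vf3 L C ℓ B (fun k => x k t) (n + 1) = -(ℓ (n + 1) * Z)
      + C n * L n * X ^ 2 - L (n + 1) * C (n + 1) * Z * x (n + 1 + 1) t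
      + Z * ∑ i ∈ Finset.range (n + 1), L i * B i (n + 1) * x i t
      - L (n + 1) * ∑' k : ℕ, B (n + 1) (n + 1 + 1 + k) * x (n + 1 + 1 + k) t ^ 2 := by
    have hn1 : ¬ (n + 1 = 0) := Nat.succ_ne_zero n
    unfold vf3
    rw [if_neg hn1]
    have e5 : n + 1 - 1 = n := by omega
    rw [e5]
    ring
  rw [hvf]
  have h10 : 0 ≤ W * |Z| := by positivity
  linarith

/-- upper and lower bounds for the growth of the current mode -/
lemma Xud (g : Gd lm L C ℓ M B T x f) (h : Stg lm L T x n σ a)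
    (hc : Cur lm L T x n σ a t1) {t : ℝ} (ht : t ∈ Ico (σ n) t1) :
    vf3 L C ℓ B (fun k => x k t) n + f n t ≤ 1 / 1000 * L n * x n t ^ 2 ∧
    -(1 / 1000 * L n * x n t ^ 2) ≤ vf3 L C ℓ B (fun k => x k t) n + f n t := by
  have q := g.sq
  have h0 : 0 ≤ σ n := σnn h le_rfl
  have htI : t ∈ Ico 0 T := ⟨h0.trans ht.1, ht.2.trans_le hc.leT⟩
  obtain ⟨s1, s2, s3, s4, s5, s6, s7, s8, s9⟩ := g.smalls h hc ht
  have hX := Xpos h hc ht
  have hL := sLp q n
  have hCp := sCp q n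
  have hC0 := C_small0 q n
  have hZ := g.Zabs h hc ht
  have hYn := (hc.act t ht).1.le
  have h1 := g.vf_le htI n hX.le
  have h2 := g.vf_ge htI n
  rw [abs_of_pos hX] at h2
  have hW : 0 < L n * x n t ^ 2 := by positivity
  have h3 : C n * L n * |x (n + 1) t| ≤ 1 / 10 ^ 5 * (L n * x n t) := by
    calc C n * L n * |x (n + 1) t| ≤ 1 / 10 ^ 20 * L n * (1 / 100 * x n t) := by gcongr
      _ = (1 / 10 ^ 22) * (L n * x n t) := by ring
      _ ≤ _ := mul_le_mul_of_nonneg_right (by norm_num) (by positivity)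
  have hU := U_nonneg (x := x) q n t
  have hph := ph_pos lm 0
  have h4 : (C n * L n * |x (n + 1) t| + 1001 / 1000 * U L x n t + ph lm 0) * x n t
      ≤ 3 / 10 ^ 5 * (L n * x n t ^ 2) := by
    calc (C n * L n * |x (n + 1) t| + 1001 / 1000 * U L x n t + ph lm 0) * x n t
        ≤ (3 / 10 ^ 5 * (L n * x n t)) * x n t := by gcongr; linarith
      _ = _ := by ring
  have h5 : (ℓ n + C n * L n * |x (n + 1) t| + 1001 / 1000 * U L x n t + ph lm 0) * x n t
      ≤ 4 / 10 ^ 5 * (L n * x n t ^ 2) := by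
    calc (ℓ n + C n * L n * |x (n + 1) t| + 1001 / 1000 * U L x n t + ph lm 0) * x n t
        ≤ (4 / 10 ^ 5 * (L n * x n t)) * x n t := by gcongr; linarith
      _ = _ := by ring
  have h6 : 1001 / 1000 * L n * Y x (n + 1) t ≤ 2 / 10 ^ 4 * (L n * x n t ^ 2) := by
    calc 1001 / 1000 * L n * Y x (n + 1) t ≤ 1001 / 1000 * L n * (1 / 100 * x n t) ^ 2 := by
          gcongr
      _ = (1001 / 1000 / 10 ^ 4) * (L n * x n t ^ 2) := by ring
      _ ≤ _ := mul_le_mul_of_nonneg_right (by norm_num) (by positivity)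
  have h7 := src_nonneg (x := x) q n t
  constructor
  · linarith
  · linarith

/-- the linear loss rate of the current mode -/
noncomputable def dl (lm L ℓ : ℕ → ℝ) (n : ℕ) : ℝ :=
  ℓ n + ph lm 0 + 10 / 9 * EE lm n * (ph lm n + 1001 / 1000 * L n * eta lm (n + 1) ^ 2)

lemma dl_nonneg (q : Seq lm L C ℓ M B) : 0 ≤ dl lm L ℓ n := by
  have := q.ℓ_nonneg n
  have := ph_pos lm 0
  have := ph_pos lm n
  have := EE_pos (lm := lm) n
  have := sLp q n
  unfold dl
  positivity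

lemma dl_time (g : Gd lm L C ℓ M B T x f) (h : Stg lm L T x n σ a)
    (hc : Cur lm L T x n σ a t1) {t : ℝ} (ht : t ∈ Ico (σ n) t1) :
    dl lm L ℓ n * (t - σ n) ≤ 1 / 10 ^ 5 := by
  have q := g.sq
  have hG := g.Gpos h n le_rfl
  have hlm := slm q n
  have ht0 : 0 ≤ t - σ n := by linarith [ht.1]
  have h1 := g.tot h hc.le
  have h2 := σnn h (le_refl n)
  have htl : t - σ n ≤ 233 / 10000 * lm 0 := by linarith [ht.2]
  have hel : (t - σ n) * (L n * a n) ≤ 233 / 10000 * lm n := by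
    have h3 := g.el' h hc.le (le_refl n)
    have : (t - σ n) * (L n * a n) ≤ (t1 - σ n) * (L n * a n) := by
      gcongr; exact ht.2.le
    linarith
  have a1 : ℓ n * (t - σ n) ≤ 1 / 2 / 10 ^ 5 := by
    have h3 := g.vis h n le_rfl
    have h4 : (ℓ n * (t - σ n)) * lm n ≤ (1 / 2 / 10 ^ 5) * lm n := by
      calc (ℓ n * (t - σ n)) * lm n = (ℓ n * lm n) * (t - σ n) := by ring
        _ ≤ (12 / 10 ^ 5 * (L n * a n)) * (t - σ n) := by gcongr
        _ = 12 / 10 ^ 5 * ((t - σ n) * (L n * a n)) := by ring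
        _ ≤ 12 / 10 ^ 5 * (233 / 10000 * lm n) := by gcongr
        _ = (12 / 10 ^ 5 * (233 / 10000)) * lm n := by ring
        _ ≤ _ := mul_le_mul_of_nonneg_right (by norm_num) hlm.le
    exact le_of_mul_le_mul_right h4 hlm
  have a2 : ph lm 0 * (t - σ n) ≤ 1 / 10 ^ 20 := g.ph_time htl
  have a3 : 10 / 9 * EE lm n * (ph lm n + 1001 / 1000 * L n * eta lm (n + 1) ^ 2) * (t - σ n)
      ≤ 1 / 10 ^ 6 := by
    have hE := EE_pos (lm := lm) n
    have hEb := EE_big q n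
    have htE : t - σ n ≤ EE lm n := by
      have := EE_lm' q (Nat.zero_le n)
      have := slm q 0
      linarith
    have h3 : 1001 / 1000 * L n * eta lm (n + 1) ^ 2 ≤ EE lm n ^ 2 * ph lm n := by
      have h4 := eta2 q n
      have h5 := EE_L q (k := n) (n := n) (by omega)
      have h6 : Real.exp (-(176 / 100) * lm n) ≤ ph lm n := by
        rw [ph_eq]; apply Real.exp_le_exp.2; nlinarith
      have h7 := ph_pos lm n
      calc 1001 / 1000 * L n * eta lm (n + 1) ^ 2 ≤ EE lm n * EE lm n * ph lm n := by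
            have := h4.trans h6
            have hLp := sLp q n
            gcongr
            linarith
        _ = _ := by ring
    have h7 := ph_pos lm n
    have h8 := ph_small q n 10 (by norm_num)
    calc 10 / 9 * EE lm n * (ph lm n + 1001 / 1000 * L n * eta lm (n + 1) ^ 2) * (t - σ n)
        ≤ EE lm n * EE lm n * (EE lm n ^ 2 * ph lm n + EE lm n ^ 2 * ph lm n) * EE lm n := by
          have h9 : ph lm n ≤ EE lm n ^ 2 * ph lm n := by
            have : 1 ≤ EE lm n ^ 2 := by nlinarith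
            nlinarith
          have hLp := sLp q n
          have : 0 ≤ eta lm (n + 1) := (eta_pos _).le
          gcongr
          linarith
      _ = 2 * EE lm n ^ 5 * ph lm n := by ring
      _ ≤ EE lm n ^ 10 * ph lm n := by
          gcongr
          have : (2 : ℝ) ≤ EE lm n ^ 5 := by
            have : (1 : ℝ) ≤ EE lm n := by linarith
            calc (2 : ℝ) ≤ EE lm n := by linarith
              _ ≤ EE lm n ^ 5 := le_self_pow₀ this (by norm_num)
          calc 2 * EE lm n ^ 5 ≤ EE lm n ^ 5 * EE lm n ^ 5 := by gcongr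
            _ = _ := by ring
      _ ≤ 1 / 10 ^ 20 := h8
      _ ≤ _ := by norm_num
  unfold dl
  calc (ℓ n + ph lm 0 + 10 / 9 * EE lm n * (ph lm n + 1001 / 1000 * L n * eta lm (n + 1) ^ 2))
        * (t - σ n)
      = ℓ n * (t - σ n) + ph lm 0 * (t - σ n) + 10 / 9 * EE lm n * (ph lm n
        + 1001 / 1000 * L n * eta lm (n + 1) ^ 2) * (t - σ n) := by ring
    _ ≤ 1 / 2 / 10 ^ 5 + 1 / 10 ^ 20 + 1 / 10 ^ 6 := by linarith
    _ ≤ _ := by norm_num

/-- refined lower bound for the growth of the current mode -/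
lemma Xlo (g : Gd lm L C ℓ M B T x f) (h : Stg lm L T x n σ a)
    (hc : Cur lm L T x n σ a t1) {t : ℝ} (ht : t ∈ Ico (σ n) t1)
    (hY : √(Y x (n + 2) t) ≤ eta lm (n + 1)) :
    -(dl lm L ℓ n * x n t) - C n * L n * x n t * |x (n + 1) t|
      - 1001 / 1000 * L n * x (n + 1) t ^ 2 ≤ vf3 L C ℓ B (fun k => x k t) n + f n t := by
  have q := g.sq
  have h0 : 0 ≤ σ n := σnn h le_rfl
  have htI : t ∈ Ico 0 T := ⟨h0.trans ht.1, ht.2.trans_le hc.leT⟩
  have hX := Xpos h hc ht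
  have hL := sLp q n
  have hst := g.strain_nonneg h hc ht
  obtain ⟨_, _, h3, h4⟩ := g.vf_terms htI n
  have h5 := neg_le_of_abs_le (g.hf n t htI)
  rw [abs_of_pos hX] at h4 h5
  have h6 := le_of_abs_le h4
  have h7 := src_nonneg (x := x) q n t
  have hYb : Y x (n + 1 + 1) t ≤ eta lm (n + 1) ^ 2 := by
    calc Y x (n + 1 + 1) t = √(Y x (n + 2) t) ^ 2 := (Real.sq_sqrt (Y_nonneg _ _)).symm
      _ ≤ _ := by gcongr
  have h8 : Y x (n + 1) t ≤ x (n + 1) t ^ 2 + eta lm (n + 1) ^ 2 := by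
    rw [g.Y_succ htI (n + 1)]; linarith
  have h9 : 1001 / 1000 * L n * Y x (n + 1) t
      ≤ 1001 / 1000 * L n * x (n + 1) t ^ 2 + 1001 / 1000 * L n * eta lm (n + 1) ^ 2 := by
    calc 1001 / 1000 * L n * Y x (n + 1) t
        ≤ 1001 / 1000 * L n * (x (n + 1) t ^ 2 + eta lm (n + 1) ^ 2) := by gcongr
      _ = _ := by ring
  have h10 : 0 ≤ x n t * ∑ i ∈ Finset.range n, L i * B i n * x i t := by positivity
  -- the constant terms
  have h11 : ph lm n + 1001 / 1000 * L n * eta lm (n + 1) ^ 2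
      ≤ 10 / 9 * EE lm n * (ph lm n + 1001 / 1000 * L n * eta lm (n + 1) ^ 2) * x n t := by
    have h12 := g.aE h n le_rfl
    have h13 := (hc.act t ht).2
    have hE := EE_pos (lm := lm) n
    have h14 : 1 ≤ 10 / 9 * EE lm n * x n t := by
      calc (1 : ℝ) ≤ EE lm n * a n := h12
        _ ≤ EE lm n * (10 / 9 * x n t) := by gcongr; linarith
        _ = _ := by ring
    have h15 : 0 ≤ ph lm n + 1001 / 1000 * L n * eta lm (n + 1) ^ 2 := by
      have := ph_pos lm n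
      positivity
    calc ph lm n + 1001 / 1000 * L n * eta lm (n + 1) ^ 2
        = 1 * (ph lm n + 1001 / 1000 * L n * eta lm (n + 1) ^ 2) := (one_mul _).symm
      _ ≤ (10 / 9 * EE lm n * x n t) * (ph lm n + 1001 / 1000 * L n * eta lm (n + 1) ^ 2) := by
          gcongr
      _ = _ := by ring
  have e : dl lm L ℓ n * x n t = ℓ n * x n t + ph lm 0 * x n t
      + 10 / 9 * EE lm n * (ph lm n + 1001 / 1000 * L n * eta lm (n + 1) ^ 2) * x n t := by
    unfold dl; ring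
  rw [e]
  unfold src at h7
  unfold vf3
  simp only
  have e2 : C n * L n * |x (n + 1) t| * x n t = C n * L n * x n t * |x (n + 1) t| := by ring
  linarith

end Gd

end Pool.Agent.Y6.N
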