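import Pool.Agent.Y6.N.Defs

/-! Statements of the steps (Navier-Stokes equations with an additional skew-adjoint linear
term). -/

open Set Filter Topology MeasureTheory

set_option autoImplicit false

namespace Pool.Agent.Y6.N

open Pool.Agent.Y5 Pool.Agent.Y5.D
open Pool.Agent.Y6.K (Kz lv)

/-- Averaging in a finite group of modes rotated with the speed `S`; a part of the error is
controlled by the dissipation `-Y'` of the energy. -/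
def S_AVG2 : Prop := ∀ (b Θ : ℝ) (n : ℕ), 0 ≤ b → 0 < Θ → ∃ C : ℝ, 1 ≤ C ∧
  ∀ (ι : Type) [Fintype ι] (σ : ι → ι) (τ : ι → ℝ) (S θ h η ζ : ℝ) (v H H' E : ι → ℝ → ℝ)
    (Y Y' : ℝ → ℝ),
    Fintype.card ι ≤ n → (∀ j, σ (σ j) = j) → (∀ j, τ (σ j) = -τ j) →
    (∀ j, τ j ^ 2 = 1) → 1 ≤ S → 0 ≤ θ → θ ≤ Θ → 0 ≤ h → 0 ≤ η → 0 ≤ ζ →
    (∀ j, ∀ t ∈ Icc 0 θ,
      HasDerivWithinAt (v j) (S * τ j * v (σ j) t + H j t + E j t) (Icc 0 θ) t) →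
    (∀ j, ∀ t ∈ Icc 0 θ, HasDerivWithinAt (H j) (H' j t) (Icc 0 θ) t) →
    (∀ j, ∀ t ∈ Icc 0 θ, |H j t| ≤ h ∧ |H' j t| ≤ h) →
    (∀ t ∈ Icc 0 θ, HasDerivWithinAt Y (Y' t) (Icc 0 θ) t ∧ Y' t ≤ 0 ∧ 0 ≤ Y t ∧ Y t ≤ 1) →
    (∀ j, ∀ t ∈ Icc 0 θ, |E j t| ≤ b * ∑ i, |v i t| + η + ζ * -Y' t) → (∀ j, v j 0 = 0) →
    ∀ j, ∀ t ∈ Icc 0 θ, |v j t| ≤ C * (h / S + η + ζ)

/-- Existence for the truncated systems. -/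
def S_GAL2 : Prop := ∀ (J : Type) (g o : J → ℕ) (σ : J → J) (τ : J → ℝ) (ℓ ρ E : ℕ → ℝ)
  (D : Ix J → Ix J → ℝ) (c : Ix J → Ix J → Ix J → ℝ) (Θ : ℝ) (S : ℕ → ℝ), Rot o σ τ →
  Dis g ℓ ρ E D → (∀ j a b, c j a b = -c b a j) → 0 < Θ → ∀ N, ∃ z, TSol Θ S o σ τ D c N z

/-- The other modes are as small as we like if the speeds are chosen recursively. -/
def S_BOOT2 : Prop := ∀ (J : Type) (g o : J → ℕ) (σ : J → J) (τ : J → ℝ)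
  (L C M ℓ ρ E : ℕ → ℝ) (B : ℕ → ℕ → ℝ) (D : Ix J → Ix J → ℝ) (c : Ix J → Ix J → Ix J → ℝ)
  (Θ : ℝ) (β : ℕ → ℝ), Kern g L C B M c → Rot o σ τ → Dis g ℓ ρ E D → 0 < Θ →
  (∀ n, 0 < β n) → ∃ S : ℕ → ℝ, (∀ m, 1 ≤ S m) ∧ ∀ N z, TSol Θ S o σ τ D c N z →
    ∀ j, ∀ t ∈ Icc (0 : ℝ) Θ, |z (Sum.inr j) t| ≤ β (g j)

/-- Limits of the solutions of the truncated systems. -/
def S_LIM2 : Prop := ∀ (J : Type) (g o : J → ℕ) (σ : J → J) (τ : J → ℝ)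
  (lm L C M ℓ ρ E : ℕ → ℝ) (B : ℕ → ℕ → ℝ) (D : Ix J → Ix J → ℝ)
  (c : Ix J → Ix J → Ix J → ℝ) (Θ : ℝ) (S : ℕ → ℝ) (b : J → ℝ), Kern g L C B M c →
  Seq lm L C ℓ M B → Rot o σ τ → Dis g ℓ ρ E D → 0 < Θ → (∀ j, 0 ≤ b j) → Summable b →
  ∀ Z : ℕ → Ix J → ℝ → ℝ, (∀ N, TSol Θ S o σ τ D c N (Z N)) →
  (∀ N j, ∀ t ∈ Icc (0 : ℝ) Θ, |Z N (Sum.inr j) t| ≤ b j) →
  ∀ U : Ultrafilter ℕ, (U : Filter ℕ) ≤ atTop → ∃ z : Ix J → ℝ → ℝ,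
    (∀ i, ∀ t ∈ Icc (0 : ℝ) Θ, Tendsto (fun N => Z N i t) U (𝓝 (z i t))) ∧ Init z ∧
    (∀ t ∈ Icc (0 : ℝ) Θ, Summable (fun a => z a t ^ 2) ∧ ∑' a, z a t ^ 2 ≤ 1) ∧
    (∀ j, ∀ t ∈ Icc (0 : ℝ) Θ, |z (Sum.inr j) t| ≤ b j) ∧
    ∀ θ, 0 ≤ θ → θ ≤ Θ →
      (∃ X, ∀ᶠ N in (U : Filter ℕ), ∀ t ∈ Icc 0 θ, ∀ n, L n * |Z N (Sum.inl n) t| ≤ X) →
      ∀ i, ∀ t ∈ Icc 0 θ, HasDerivWithinAt (z i)
        (Kz S o σ τ (fun a => z a t) i - lin D (fun a => z a t) i + qd c (fun a => z a t) i)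
        (Icc 0 θ) t

/-- Persistence of the decay. -/
def S_PERS2 : Prop := ∀ (lm L C ℓ M : ℕ → ℝ) (B : ℕ → ℕ → ℝ) (φ : ℕ → ℝ), Seq lm L C ℓ M B →
  (∀ n, 0 < φ n) → (∀ k : ℕ, ∃ X, ∀ n, L n ^ k * φ n ≤ X) → ∀ (Θ : ℝ) (k : ℕ) (X : ℝ), ∃ Y : ℝ,
    ∀ (θ : ℝ) (x f : ℕ → ℝ → ℝ), 0 ≤ θ → θ ≤ Θ → XSol L C ℓ B φ 0 θ x f → x 0 0 = 1 →
      (∀ n, x (n + 1) 0 = 0) → (∀ n, ∀ t ∈ Icc 0 θ, L n ^ 2 * |x n t| ≤ X) →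
      (∃ X', ∀ n, ∀ t ∈ Icc 0 θ, L n ^ k * |x n t| ≤ X') →
      ∀ n, ∀ t ∈ Icc 0 θ, L n ^ k * |x n t| ≤ Y

/-- Local bounds. -/
def S_LOC2 : Prop := ∀ (lm L C ℓ M : ℕ → ℝ) (B : ℕ → ℕ → ℝ) (φ : ℕ → ℝ), Seq lm L C ℓ M B →
  (∀ n, 0 < φ n) → (∀ k : ℕ, ∃ X, ∀ n, L n ^ k * φ n ≤ X) → ∀ X : ℝ, ∃ δ Y : ℝ, 0 < δ ∧
    ∀ (a b : ℝ) (x f : ℕ → ℝ → ℝ), a ≤ b → b ≤ a + δ → XSol L C ℓ B φ a b x f →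
      (∃ N : ℕ, ∀ n, N < n → ∀ t ∈ Icc a b, x n t = 0) → (∀ n, L n ^ 3 * |x n a| ≤ X) →
      ∀ n, ∀ t ∈ Icc a b, L n ^ 2 * |x n t| ≤ Y

/-- Blow-up for the perturbed system of the main modes. -/
def S_ODE2 : Prop := ∀ (lm L C ℓ M : ℕ → ℝ) (B : ℕ → ℕ → ℝ), Seq lm L C ℓ M B →
  ∃ φ : ℕ → ℝ, (∀ n, 0 < φ n) ∧ ∃ T₁ : ℝ, 0 < T₁ ∧
    ∀ (T : ℝ) (x f : ℕ → ℝ → ℝ), 0 < T →
    (∀ n, ∀ t ∈ Ico 0 T, HasDerivWithinAt (x n)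
      (vf3 L C ℓ B (fun m => x m t) n + f n t) (Ico 0 T) t) →
    (∀ T' < T, ∃ Mx, ∀ t ∈ Icc 0 T', ∀ n, L n ^ 10 * |x n t| ≤ Mx) →
    (∀ t ∈ Ico 0 T, ∑' n, x n t ^ 2 ≤ 1) →
    (∀ n, ∀ t ∈ Ico 0 T, |f n t| ≤ φ 0 * |x n t| + φ n) →
    x 0 0 = 1 → (∀ n, x (n + 1) 0 = 0) →
    T ≤ T₁ ∧
    ((∀ n, ∃ t ∈ Ico 0 T, (8 / 1000) ^ n ≤ x n t ∧
        ∀ m, n < m → |x m t| ≤ Real.exp (-(lm (m - 1) / 200))) ∨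
      ∃ n₀, ∀ t ∈ Ico 0 T, ∀ m, n₀ ≤ m → |x m t| ≤ Real.exp (-(lm (m - 1) / 200)))

/-- The perturbation of the main modes is small if the other modes are small. -/
def S_PB : Prop := ∀ (J : Type) (g : J → ℕ) (lm L C M ℓ ℓ' ρ E φ : ℕ → ℝ) (B : ℕ → ℕ → ℝ)
  (D : Ix J → Ix J → ℝ) (c : Ix J → Ix J → Ix J → ℝ), Kern g L C B M c →
  Pool.Agent.Y5.D.Seq lm L C ℓ M B → Dis g ℓ' ρ E D → (∀ n, 0 < φ n) →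
  ∃ β : ℕ → ℝ, (∀ n, 0 < β n) ∧ Summable (fun j => β (g j)) ∧
    ∀ z : Ix J → ℝ, Summable (fun a => z a ^ 2) → ∑' a, z a ^ 2 ≤ 1 →
      (∀ j, |z (Sum.inr j)| ≤ β (g j)) → ∀ n,
      Summable (fun p : Ix J × Ix J => c (Sum.inl n) p.1 p.2 * z p.1 * z p.2) →
      |qd c z (Sum.inl n) - lin D z (Sum.inl n) - vf3 L C ℓ' B (fun m => z (Sum.inl m)) n|
        ≤ φ 0 * |z (Sum.inl n)| + φ n

/-- Energy identity and uniqueness for regular solutions. -/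
def S_UNI2 : Prop := ∀ (J : Type) (g o : J → ℕ) (σ : J → J) (τ : J → ℝ)
  (lm L C M ℓ ρ E : ℕ → ℝ) (B : ℕ → ℕ → ℝ) (D : Ix J → Ix J → ℝ)
  (c : Ix J → Ix J → Ix J → ℝ) (S : ℕ → ℝ) (T : ℝ), Kern g L C B M c →
  Seq lm L C ℓ M B → Rot o σ τ → Dis g ℓ ρ E D → (∃ (X : ℝ) (p : ℕ), ∀ n, E n ≤ X * L n ^ p) →
    (∀ z, NSol S o σ τ D c g L T z → ∀ t ∈ Ico 0 T, Summable (fun a => z a t ^ 2) ∧
      Summable (fun a => z a t * lin D (fun b => z b t) a) ∧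
      HasDerivWithinAt (fun s => ∑' a, z a s ^ 2)
        (-(2 * ∑' a, z a t * lin D (fun b => z b t) a)) (Ico 0 T) t) ∧
    ∀ z z', NSol S o σ τ D c g L T z → NSol S o σ τ D c g L T z' → (∀ i, z i 0 = z' i 0) →
      ∀ i, ∀ t ∈ Ico 0 T, z i t = z' i t

/-- Blow-up for the full system of the modes. -/
def S_BLOWN : Prop := ∀ (J : Type) (g o : J → ℕ) (σ : J → J) (τ : J → ℝ)
  (lm L C M ℓ ℓ' ρ E : ℕ → ℝ) (B : ℕ → ℕ → ℝ) (D : Ix J → Ix J → ℝ)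
  (c : Ix J → Ix J → Ix J → ℝ) (β₁ : ℕ → ℝ), Kern g L C B M c →
  Pool.Agent.Y5.D.Seq lm L C ℓ M B → Seq lm L C ℓ' M B → Rot o σ τ → Dis g ℓ' ρ E D →
  (∃ (X : ℝ) (p : ℕ), ∀ n, E n ≤ X * L n ^ p) → (∀ n, 0 < β₁ n) →
  ∃ S : ℕ → ℝ, (∀ n, 1 ≤ S n) ∧ ∃ (T : ℝ) (z : Ix J → ℝ → ℝ), 0 < T ∧
    NSol S o σ τ D c g L T z ∧ Init z ∧
    (∀ (T' : ℝ) (z' : Ix J → ℝ → ℝ), 0 < T' → NSol S o σ τ D c g L T' z' → Init z' →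
      T' ≤ T ∧ ∀ i, ∀ t ∈ Ico 0 T', z' i t = z i t) ∧
    (∀ t ∈ Ico 0 T, Summable (fun a => z a t ^ 2) ∧ ∑' a, z a t ^ 2 ≤ 1) ∧
    (∀ t ∈ Ico 0 T, Summable (fun a => z a t * lin D (fun b => z b t) a) ∧
      HasDerivWithinAt (fun s => ∑' a, z a s ^ 2)
        (-(2 * ∑' a, z a t * lin D (fun b => z b t) a)) (Ico 0 T) t) ∧
    (∀ w, ∀ t ∈ Ico 0 T, |z (Sum.inr w) t| ≤ β₁ (g w)) ∧
    ∀ n, ∃ t ∈ Ico 0 T, (8 / 1000) ^ n ≤ z (Sum.inl n) t ∧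
      ∀ m, n < m → |z (Sum.inl m) t| ≤ Real.exp (-(lm (m - 1) / 200))

/-! ### The concrete system -/

/-- The concrete system: the orthonormal system of `Y5.D` with the exact Laplacian. -/
def S_CONCN : Prop := ∀ ν : ℝ, 0 < ν → ∃ (J : Type) (g o : J → ℕ) (σ : J → J) (τ : J → ℝ)
  (F lm L C ℓ ℓ' M N ρ E : ℕ → ℝ) (B : ℕ → ℕ → ℝ) (e : Ix J → Fam),
  Conc ν g F L ℓ M N e ∧ Pool.Agent.Y5.D.Seq lm L C ℓ M B ∧ Seq lm L C ℓ' M B ∧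
    Kern g L C B M (fun j a b => bil (e a) (e b) (e j)) ∧ Rot o σ τ ∧ Dis g ℓ' ρ E (Dm ν e) ∧
    ∃ (X : ℝ) (p : ℕ), ∀ n, E n ≤ X * L n ^ p

/-- the Dirichlet form in terms of the coefficients -/
def S_FLDB : Prop := ∀ V W, OT V → Rap V → OT W → Rap W →
  dirb (fieldOf V) (fieldOf W) = (2 * Real.pi) ^ 2 * ∑' k, ‖vec k‖ ^ 2 * inner ℝ (V k) (W k)

/-! ### The main theorem -/

/-- The Navier-Stokes equations with an additional skew-adjoint linear term: blow-up, for every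
viscosity. -/
def S_MAINN : Prop := ∀ ν : ℝ, 0 < ν → ∃ (ι : Type) (e : ι → E3 → E3) (σ : ι → ι) (s : ι → ℝ)
  (i₀ : ι) (T : ℝ) (u : ℝ → E3 → E3), Skew e σ s ∧ 0 < T ∧ SolN ν e σ s T u ∧ u 0 = e i₀ ∧
    -- uniqueness, and `T` is the maximal time of existence
    (∀ (T' : ℝ) (v : ℝ → E3 → E3), 0 < T' → SolN ν e σ s T' v → v 0 = e i₀ →
      T' ≤ T ∧ ∀ t ∈ Ico 0 T', v t = u t) ∧
    -- the energy identity of the Navier-Stokes equations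
    (∀ t ∈ Ico 0 T, HasDerivWithinAt (fun τ => ip (u τ) (u τ)) (-(2 * (ν * dir (u t))))
      (Ico 0 T) t) ∧
    -- blow-up of the velocity
    ∀ M : ℝ, ∃ t ∈ Ico 0 T, ∃ y, M < ‖u t y‖

/-- The passage to fields. -/
def S_PHYSN : Prop := S_FLD → S_FLDB → S_BLOWN → S_CONCN → S_MAINN

end Pool.Agent.Y6.N
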